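import Pool.Agent.K1H6.LC.MainT
import Pool.Agent.Y667.QKR.QF
import Pool.Agent.Y667.QKR.Main
import Pool.Agent.Y738.MT.CVN

/-!
# Curves with prescribed residue classes: 2-Selmer groups of order 4 and 8
-/

set_option autoImplicit false

namespace Pool.Agent.K1H6.LC

open Finset Filter Pool.Agent.W262.RK Pool.Agent.W307.RT Pool.Agent.W307.RS Pool.Agent.W307.SE
  Pool.Agent.W307.FK Pool.Agent.Y667.RP Pool.Agent.Y667.RZ Pool.Agent.Y667.PA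
  Pool.Agent.Y285.RP Pool.Agent.Y667.QK Pool.Agent.Y667.QK.R

theorem maintL : St_MAINTL :=
  MAINTL Pool.Agent.Y246.RZ.SV3 Pool.Agent.Y153.RP.CNT
    (Pool.Agent.Y515.RP.ERR Pool.Agent.Y515.RP.EE) Pool.Agent.Y515.RP.EE
    (Pool.Agent.Y202.QK.GD Pool.Agent.Y448.QK.VN Pool.Agent.Y448.QK.KILL Pool.Agent.Y448.QK.NG)
    (inpR pare) (Pool.Agent.Y665.QK.HALFt Pool.Agent.Y448.QK.NG)

/-- the cubic has three integer roots with prescribed differences modulo `M` -/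
def Cls (M : ℕ) (α β : ℤ) (c : ℤ × ℤ) : Prop := ∃ e₁ e₂ e₃ : ℤ,
  (∀ x : ℤ, x ^ 3 + c.1 * x + c.2 = (x - e₁) * (x - e₂) * (x - e₃)) ∧
    (M : ℤ) ∣ e₂ - e₁ - α ∧ (M : ℤ) ∣ e₃ - e₁ - β

/-- the target -/
def TL (r M : ℕ) (α β : ℤ) (k : ℤ × ℤ) : Prop := Cls M α β k ∧ (SelR k.1 k.2).Finite ∧
  (SelR k.1 k.2).ncard = 2 ^ (r + 2) ∧ RW k ((-1) ^ r)

lemma cls_of {M : ℕ} {α α' : ℤ} {a b k : ℤ} (h : a + b = 3 * k) (h1 : (M : ℤ) ∣ a - α)
    (h2 : (M : ℤ) ∣ b - α') : Cls M α α' (cc a b k) := by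
  refine ⟨-k, a - k, b - k, fun x => cc_root h x, ?_, ?_⟩
  · rw [show a - k - -k - α = a - α by ring]; exact h1
  · rw [show b - k - -k - α' = b - α' by ring]; exact h2

lemma tl_of {M α α' f β X r : ℕ} (hf : 0 < f) (hfM : (M : ℤ) ∣ (f : ℤ) - 1) {x : ℕ × ℕ}
    (hx : GoodL M α α' f β 1 1 X x) {k : ℤ} (hk : (x.1 : ℤ) + x.2 = 3 * k) (hr : r = 0 ∨ r = 1) :
    TL r M α α' (cc x.1 x.2 k) ∨ TL r M α α' (cc ((f : ℤ) * x.1) ((f : ℤ) * x.2) ((f : ℤ) * k)) := by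
  obtain ⟨⟨g1, g2, g3, g4, g5, g6, g7, g8, g9, g10, g11⟩, c1, c2, hex⟩ := hx
  have hex := hex rfl
  rw [Nat.cast_one, one_mul, one_mul] at g9 g11
  rw [mul_one] at g10 g11
  have hb : (1 : ℤ) ≤ x.2 := by omega
  have hab : (x.2 : ℤ) < x.1 := by omega
  have hfI : (0 : ℤ) < f := by exact_mod_cast hf
  have d1 : (M : ℤ) ∣ (x.1 : ℤ) - α := Nat.modEq_iff_dvd.1 c1.symm
  have d2 : (M : ℤ) ∣ (x.2 : ℤ) - α' := Nat.modEq_iff_dvd.1 c2.symm
  have d3 : (M : ℤ) ∣ (f : ℤ) * x.1 - α := by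
    rw [show (f : ℤ) * x.1 - α = ((f : ℤ) - 1) * x.1 + (x.1 - α) by ring]
    exact dvd_add (hfM.mul_right _) d1
  have d4 : (M : ℤ) ∣ (f : ℤ) * x.2 - α' := by
    rw [show (f : ℤ) * x.2 - α' = ((f : ℤ) - 1) * x.2 + (x.2 - α') by ring]
    exact dvd_add (hfM.mul_right _) d2
  have hkf : (f : ℤ) * x.1 + (f : ℤ) * x.2 = 3 * ((f : ℤ) * k) := by
    linear_combination (f : ℤ) * hk
  have C1 := cls_of hk d1 d2
  have C2 := cls_of hkf d3 d4
  have w1 : ∀ w, RN 1 x.1 x.2 w → RW (cc x.1 x.2 k) w := by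
    intro w hw
    have := hw k hk
    rw [Nat.cast_one, one_mul, one_mul, one_mul] at this
    exact this
  have w2 : ∀ w, RN f x.1 x.2 w → RW (cc ((f : ℤ) * x.1) ((f : ℤ) * x.2) ((f : ℤ) * k)) w := by
    intro w hw
    exact hw k hk
  have s1 : ∀ N, (Sel (x.1 : ℤ) x.2).ncard = N → Pool.Agent.Y738.MT.TN N (cc x.1 x.2 k) :=
    fun N hN => Pool.Agent.Y738.MT.tgN hk hb hab g9 hN
  have s2 : ∀ N, (Sel ((f : ℤ) * x.1) ((f : ℤ) * x.2)).ncard = N →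
      Pool.Agent.Y738.MT.TN N (cc ((f : ℤ) * x.1) ((f : ℤ) * x.2) ((f : ℤ) * k)) :=
    fun N hN => Pool.Agent.Y738.MT.tgN hkf (by nlinarith) (by nlinarith) g10 hN
  rcases hex with ⟨e1, e2⟩ | ⟨e1, e2⟩
  · have hR : RN 1 x.1 x.2 1 ∧ RN f x.1 x.2 (-1) := by
      rcases g11 with g | g
      · exact g.2.2
      · exfalso
        have := g.2.1
        omega
    rcases hr with rfl | rfl
    · left
      obtain ⟨t1, t2⟩ := s1 _ e1
      exact ⟨C1, t1, by rw [t2]; norm_num, by rw [pow_zero]; exact w1 _ hR.1⟩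
    · right
      obtain ⟨t1, t2⟩ := s2 _ e2
      exact ⟨C2, t1, by rw [t2]; norm_num, by rw [pow_one]; exact w2 _ hR.2⟩
  · have hR : RN 1 x.1 x.2 (-1) ∧ RN f x.1 x.2 1 := by
      rcases g11 with g | g
      · exfalso
        have := g.1
        omega
      · exact g.2.2
    rcases hr with rfl | rfl
    · right
      obtain ⟨t1, t2⟩ := s2 _ e2
      exact ⟨C2, t1, by rw [t2]; norm_num, by rw [pow_zero]; exact w2 _ hR.2⟩
    · left
      obtain ⟨t1, t2⟩ := s1 _ e1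
      exact ⟨C1, t1, by rw [t2]; norm_num, by rw [pow_one]; exact w1 _ hR.1⟩

open Classical in
theorem curvesN {M α α' r : ℕ} (hM0 : 0 < M) (hMo : Odd M) (hα : α.Coprime M)
    (hα' : α'.Coprime M) (hd : ∀ p : ℕ, p.Prime → p ∣ M → ¬ α' ≡ α [MOD p])
    (h3 : 3 ∣ M → α % 3 = 1 ∧ α' % 3 = 2) (hr : r = 0 ∨ r = 1) :
    ∃ c : ℝ, 0 < c ∧ ∃ H0 : ℕ, ∀ H : ℕ, H0 ≤ H →
      c * ((Cv 2 H).card : ℝ) ≤ (((Cv 2 H).filter (TL r M α α')).card : ℝ) := by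
  obtain ⟨f, hfp, -, hf1⟩ := Nat.exists_prime_gt_modEq_one (k := 8 * M) 1 (by positivity)
  have hf8 : f % 8 = 1 := hf1.of_dvd (dvd_mul_right 8 M)
  have hfM' : f ≡ 1 [MOD M] := hf1.of_dvd (dvd_mul_left M 8)
  have hfM : (M : ℤ) ∣ (f : ℤ) - 1 := by
    have := Nat.modEq_iff_dvd.1 hfM'.symm
    exact_mod_cast this
  have hMf : M.Coprime f := by
    rw [Nat.coprime_comm, Nat.Prime.coprime_iff_not_dvd hfp]
    intro h
    have h1 : (f : ℤ) ∣ (f : ℤ) - 1 := dvd_trans (by exact_mod_cast h) hfM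
    have h2 : (f : ℤ) ∣ 1 := by
      have := dvd_sub (dvd_refl (f : ℤ)) h1
      rwa [sub_sub_cancel] at this
    have h4 : f ∣ 1 := by exact_mod_cast h2
    exact hfp.one_lt.ne' (Nat.dvd_one.1 h4)
  obtain ⟨β, hfl⟩ := Pool.Agent.Y388.QK.FLIP f hfp hf8
  have hf0 := hfl.pr.pos
  obtain ⟨c, hc, ε, hε, z, hM⟩ := maintL f β M α α' hfl hM0 hMo hMf hα hα' hd h3 0
  obtain ⟨X0, hX0⟩ := hM 1 (QF.adT_f hfl.pr hfl.m8) (by simp) (by simp [hε.le])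
  obtain ⟨K, hK, hcv⟩ := Pool.Agent.Y697.QK.CVT f hf0
  obtain ⟨H0, hH0⟩ := hcv X0
  refine ⟨c / (2 * K), by positivity, H0, fun H hH => ?_⟩
  obtain ⟨X, hX1, hX2, hX3, hX4⟩ := hH0 H hH
  have h1 := hX0 X hX1 1 (by simp) (by simp)
  rw [Nat.cast_one, one_pow, div_one] at h1
  obtain ⟨G, hG⟩ : ∃ G, G = (Icc 1 X ×ˢ Icc 1 X).filter (GoodL M α α' f β 1 1 X) := ⟨_, rfl⟩
  rw [← hG] at h1
  obtain ⟨p, hp⟩ : ∃ p : ℕ × ℕ → Prop, p = fun x => ∀ k : ℤ, (x.1 : ℤ) + x.2 = 3 * k →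
      TL r M α α' (cc x.1 x.2 k) := ⟨_, rfl⟩
  have hBP : ∀ x ∈ G, BP X x ∧ GoodL M α α' f β 1 1 X x := by
    intro x hx
    rw [hG, mem_filter] at hx
    obtain ⟨⟨g1, g2, g3, g4, g5, g6, g7, g8, -⟩, -⟩ := hx.2
    exact ⟨⟨g1, g2, g3, g4, g5, g6, g8⟩, hx.2⟩
  have a1 : (G.filter p).card ≤ ((Cv 2 H).filter (TL r M α α')).card := by
    refine hX4 1 _ _ one_pos hf0 squarefree_one (fun x hx => (hBP x (mem_filter.1 hx).1).1)
      fun x hx k hk => ?_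
    have h2 := (mem_filter.1 hx).2
    rw [hp] at h2
    rw [Nat.cast_one, one_mul, one_mul, one_mul]
    exact h2 k hk
  have a2 : (G.filter (fun x => ¬ p x)).card ≤ ((Cv 2 H).filter (TL r M α α')).card := by
    refine hX4 f _ _ hf0 le_rfl hfp.squarefree (fun x hx => (hBP x (mem_filter.1 hx).1).1)
      fun x hx k hk => ?_
    have h2 := (mem_filter.1 hx).2
    rw [hp] at h2
    refine (tl_of hf0 hfM (hBP x (mem_filter.1 hx).1).2 hk hr).resolve_left fun h => h2 ?_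
    intro k' hk'
    have : k' = k := by linarith
    rw [this]
    exact h
  have hsum := card_filter_add_card_filter_not (s := G) p
  have k4 : G.card ≤ 2 * ((Cv 2 H).filter (TL r M α α')).card := by omega
  have h4 : (G.card : ℝ) ≤ 2 * (((Cv 2 H).filter (TL r M α α')).card : ℝ) := by exact_mod_cast k4
  calc c / (2 * K) * ((Cv 2 H).card : ℝ) ≤ c / (2 * K) * (K * (X : ℝ) ^ 2) :=
        mul_le_mul_of_nonneg_left hX3 (by positivity)
    _ = c * (X : ℝ) ^ 2 / 2 := by field_simp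
    _ ≤ (G.card : ℝ) / 2 := by linarith
    _ ≤ _ := by linarith

lemma cls_swap {M : ℕ} {α β : ℤ} {c : ℤ × ℤ} (h : Cls M α β c) : Cls M β α c := by
  obtain ⟨e1, e2, e3, h1, h2, h3⟩ := h
  exact ⟨e1, e3, e2, fun x => by rw [h1]; ring, h3, h2⟩

lemma cls_congr {M : ℕ} {α β α' β' : ℤ} {c : ℤ × ℤ} (hα : (M : ℤ) ∣ α - α') (hβ : (M : ℤ) ∣ β - β')
    (h : Cls M α β c) : Cls M α' β' c := by
  obtain ⟨e1, e2, e3, h1, h2, h3⟩ := h
  refine ⟨e1, e2, e3, h1, ?_, ?_⟩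
  · rw [show e2 - e1 - α' = (e2 - e1 - α) + (α - α') by ring]; exact dvd_add h2 hα
  · rw [show e3 - e1 - β' = (e3 - e1 - β) + (β - β') by ring]; exact dvd_add h3 hβ

open Classical in
theorem curvesL {M r : ℕ} {α β : ℤ} (hMo : Odd M) (h : IsCoprime (α * β * (α - β)) (M : ℤ))
    (hr : r = 0 ∨ r = 1) :
    ∃ c : ℝ, 0 < c ∧ ∃ H0 : ℕ, ∀ H : ℕ, H0 ≤ H →
      c * ((Cv 2 H).card : ℝ) ≤ (((Cv 2 H).filter (TL r M α β)).card : ℝ) := by
  have hM0 : 0 < M := hMo.pos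
  have hMI : (0 : ℤ) < M := by exact_mod_cast hM0
  have hc : ∀ γ : ℤ, IsCoprime γ (M : ℤ) → (γ % M).toNat.Coprime M := by
    intro γ hγ
    have h0 : 0 ≤ γ % M := Int.emod_nonneg _ hMI.ne'
    rw [← Nat.isCoprime_iff_coprime, Int.toNat_of_nonneg h0]
    have h1 : γ % M = γ + M * (-(γ / M)) := by
      have := Int.emod_add_mul_ediv γ M
      linarith
    rw [h1]
    exact IsCoprime.add_mul_left_left hγ _
  have hdv : ∀ γ : ℤ, (M : ℤ) ∣ (((γ % M).toNat : ℕ) : ℤ) - γ := by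
    intro γ
    rw [Int.toNat_of_nonneg (Int.emod_nonneg _ hMI.ne')]
    exact ⟨-(γ / M), by
      have := Int.emod_add_mul_ediv γ M
      linarith⟩
  have hα : IsCoprime α (M : ℤ) := h.of_mul_left_left.of_mul_left_left
  have hβ : IsCoprime β (M : ℤ) := h.of_mul_left_left.of_mul_left_right
  have hαβ : IsCoprime (α - β) (M : ℤ) := h.of_mul_left_right
  -- the basic case
  have key : ∀ γ δ : ℤ, IsCoprime γ (M : ℤ) → IsCoprime δ (M : ℤ) → IsCoprime (γ - δ) (M : ℤ) →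
      (3 ∣ M → γ % 3 = 1 ∧ δ % 3 = 2) → ∃ c : ℝ, 0 < c ∧ ∃ H0 : ℕ, ∀ H : ℕ, H0 ≤ H →
      c * ((Cv 2 H).card : ℝ) ≤ (((Cv 2 H).filter (TL r M γ δ)).card : ℝ) := by
    intro γ δ hγ hδ hγδ h3
    obtain ⟨c, hc0, H0, hH⟩ := curvesN (M := M) (α := (γ % M).toNat) (α' := (δ % M).toNat) (r := r)
      hM0 hMo (hc γ hγ) (hc δ hδ) (by
        intro p hp hpM hcon
        have h1 : (p : ℤ) ∣ (((γ % M).toNat : ℕ) : ℤ) - (((δ % M).toNat : ℕ) : ℤ) :=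
          Nat.modEq_iff_dvd.1 hcon
        have hpM' : (p : ℤ) ∣ (M : ℤ) := by exact_mod_cast hpM
        have h2 := hpM'.trans (hdv γ)
        have h3 := hpM'.trans (hdv δ)
        have h4 : (p : ℤ) ∣ γ - δ := by
          have := (dvd_sub (dvd_add h1 h3) h2)
          rw [show ((((γ % M).toNat : ℕ) : ℤ) - (((δ % M).toNat : ℕ) : ℤ) +
            ((((δ % M).toNat : ℕ) : ℤ) - δ) - ((((γ % M).toNat : ℕ) : ℤ) - γ)) = γ - δ by ring]
            at this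
          exact this
        have h5 := hγδ.isUnit_of_dvd' h4 hpM'
        rw [Int.isUnit_iff] at h5
        have := hp.two_le
        omega) (by
        intro h
        obtain ⟨h1, h2⟩ := h3 h
        have h3M : (3 : ℤ) ∣ (M : ℤ) := by exact_mod_cast h
        have h4 := h3M.trans (hdv γ)
        have h5 := h3M.trans (hdv δ)
        constructor <;> omega) hr
    refine ⟨c, hc0, H0, fun H hH0 => (hH H hH0).trans (Nat.cast_le.2 (card_le_card ?_))⟩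
    intro k hk
    rw [mem_filter] at hk ⊢
    exact ⟨hk.1, cls_congr (hdv γ) (hdv δ) hk.2.1, hk.2.2⟩
  by_cases h3 : 3 ∣ M
  · have h3M : (3 : ℤ) ∣ (M : ℤ) := by exact_mod_cast h3
    have hn : ∀ γ : ℤ, IsCoprime γ (M : ℤ) → ¬ (3 : ℤ) ∣ γ := by
      intro γ hγ hd
      have h5 := hγ.isUnit_of_dvd' hd h3M
      rw [Int.isUnit_iff] at h5
      omega
    have n1 := hn _ hα
    have n2 := hn _ hβ
    have n3 := hn _ hαβ
    have hcase : (α % 3 = 1 ∧ β % 3 = 2) ∨ (β % 3 = 1 ∧ α % 3 = 2) := by omega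
    rcases hcase with h4 | h4
    · exact key α β hα hβ hαβ fun _ => h4
    · obtain ⟨c, hc0, H0, hH⟩ := key β α hβ hα (by
        rw [← neg_sub]
        exact hαβ.neg_left) fun _ => h4
      refine ⟨c, hc0, H0, fun H hH0 => (hH H hH0).trans (Nat.cast_le.2 (card_le_card ?_))⟩
      intro k hk
      rw [mem_filter] at hk ⊢
      exact ⟨hk.1, cls_swap hk.2.1, hk.2.2⟩
  · exact key α β hα hβ hαβ fun h => absurd h h3

end Pool.Agent.K1H6.LC
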