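import Pool.Agent.Y667.QKR.K5

/-!
# The main argument with prescribed residue classes, part 1: the pairs of primes
-/

set_option autoImplicit false

namespace Pool.Agent.K1H6.LC

open Finset Filter Pool.Agent.W262.RK Pool.Agent.W307.RT Pool.Agent.W307.RS Pool.Agent.W307.SE
  Pool.Agent.W307.FK Pool.Agent.Y667.RP Pool.Agent.Y667.RZ Pool.Agent.Y667.PA
  Pool.Agent.Y285.RP Pool.Agent.Y667.QK Pool.Agent.Y667.QK.R

/-- the residue classes, with the classes `α`, `α'` modulo `M` -/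
structure ModL (f β D z Q0 a0 b0 M α α' : ℕ) : Prop where
  two : 64 ∣ Q0
  ne : Q0 ≠ 0
  le : ∀ p : ℕ, p.Prime → p ∣ Q0 → p ≤ z ∨ p ∣ D
  dvd : ∀ p : ℕ, p.Prime → p ≤ z ∨ p ∣ D → p ∣ Q0
  a64 : a0 % 64 = 33
  b64 : b0 % 64 = 1
  a3 : a0 % 3 = 1
  b3 : b0 % 3 = 2
  df : ∀ p : ℕ, p.Prime → 3 ≤ p → p ≤ z ∨ p ∣ D → ¬ b0 ≡ a0 [MOD p]
  rcf : a0 ≡ 1 [MOD f] ∧ b0 ≡ β [MOD f]
  rcD : ∀ p : ℕ, p.Prime → p ∣ D → a0 ≡ 1 [MOD p] ∧ p ∣ b0 + 1
  ca : a0.Coprime Q0
  cb : b0.Coprime Q0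
  dM : M ∣ Q0
  aM : a0 ≡ α [MOD M]
  bM : b0 ≡ α' [MOD M]


theorem exists_modL {f β z M α α' : ℕ} (hF : Flip f β) (hz : f ≤ z) (hM0 : 0 < M) (hMz : M ≤ z)
    (hMo : Odd M) (hMf : M.Coprime f) (hα : α.Coprime M) (hα' : α'.Coprime M)
    (hd : ∀ p : ℕ, p.Prime → p ∣ M → ¬ α' ≡ α [MOD p]) (h3 : 3 ∣ M → α % 3 = 1 ∧ α' % 3 = 2) :
    ∃ Qz : ℕ, 0 < Qz ∧ ∀ D : ℕ,
    D ≠ 0 → (∀ p : ℕ, p.Prime → p ∣ D → z < p) →
      ∃ a0 b0 : ℕ, ModL f β D z (Qz * D) a0 b0 M α α' := by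
  have hf17 := hF.ge
  have pf := hF.pr
  obtain ⟨P1, hP1⟩ : ∃ P1 : ℕ, P1 = ∏ p ∈ ((Icc 3 z).filter (fun p => p.Prime ∧ p ≠ f ∧ ¬ p ∣ M)), p :=
    ⟨_, rfl⟩
  have hP1ne : P1 ≠ 0 := by
    rw [hP1]
    exact prod_ne_zero_iff.2 fun p hp => (mem_filter.1 hp).2.1.ne_zero
  have hdvd1 : ∀ p : ℕ, p.Prime → 3 ≤ p → p ≤ z → p ≠ f → ¬ p ∣ M → p ∣ P1 :=
    fun p hp h3 hpz h17 hpM => by
    rw [hP1]
    exact dvd_prod_of_mem _ (mem_filter.2 ⟨mem_Icc.2 ⟨h3, hpz⟩, hp, h17, hpM⟩)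
  have hdvd1' : ∀ p : ℕ, p.Prime → p ∣ P1 → (3 ≤ p ∧ p ≤ z) ∧ p ≠ f ∧ ¬ p ∣ M := by
    intro p hp h
    rw [hP1] at h
    obtain ⟨q, hq, hpq⟩ := (hp.prime.dvd_finsetProd_iff _).1 h
    rw [mem_filter, mem_Icc] at hq
    have := (Nat.prime_dvd_prime_iff_eq hp hq.2.1).1 hpq
    rw [this]
    exact ⟨hq.1, hq.2.2⟩
  refine ⟨64 * f * P1 * M, by positivity, fun D hD0 hDz => ?_⟩
  obtain ⟨Q1, -, hK⟩ : ∃ Q1 : ℕ, True ∧ ∃ a0 b0 : ℕ, ModK f β D z Q1 a0 b0 := by
    obtain ⟨Qz, -, hK⟩ := exists_modK hF hz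
    exact ⟨Qz * D, trivial, hK D hD0 hDz⟩
  obtain ⟨a1, b1, hK⟩ := hK
  obtain ⟨N, hN⟩ : ∃ N : ℕ, N = 64 * f * P1 * D := ⟨_, rfl⟩
  have hpN : ∀ p : ℕ, p.Prime → p ∣ N →
      p = 2 ∨ ((3 ≤ p ∧ (p ≤ z ∨ p ∣ D)) ∧ ¬ p ∣ M) := by
    intro p hp h
    rw [hN] at h
    rcases (hp.dvd_mul).1 h with h | h
    · rcases (hp.dvd_mul).1 h with h | h
      · rcases (hp.dvd_mul).1 h with h | h
        · left
          have : p ∣ 2 ^ 6 := by norm_num; exact h
          exact (Nat.prime_dvd_prime_iff_eq hp Nat.prime_two).1 (hp.dvd_of_dvd_pow this)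
        · right
          have h1 := (Nat.prime_dvd_prime_iff_eq hp pf).1 h
          subst h1
          refine ⟨⟨by omega, Or.inl hz⟩, fun h2 => ?_⟩
          have := Nat.dvd_gcd h2 dvd_rfl
          rw [hMf] at this
          exact hp.one_lt.ne' (Nat.dvd_one.1 this)
      · right
        obtain ⟨h1, h2, h3⟩ := hdvd1' p hp h
        exact ⟨⟨h1.1, Or.inl h1.2⟩, h3⟩
    · right
      have h1 := hDz p hp h
      refine ⟨⟨by omega, Or.inr h⟩, fun h2 => ?_⟩
      have := Nat.le_of_dvd hM0 h2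
      omega
  have hcop : N.Coprime M := by
    apply Nat.coprime_of_dvd
    intro p hp h1 h2
    rcases hpN p hp h1 with h | h
    · subst h
      exact (Nat.not_even_iff_odd.2 hMo) (even_iff_two_dvd.2 h2)
    · exact h.2 h2
  obtain ⟨a0, ha1, ha2⟩ := Nat.chineseRemainder hcop a1 α
  obtain ⟨b0, hb1, hb2⟩ := Nat.chineseRemainder hcop b1 α'
  have h64N : 64 ∣ N := by
    rw [hN]
    exact ((dvd_mul_right 64 f).mul_right _).mul_right _
  have hdN : ∀ p : ℕ, p.Prime → 3 ≤ p → p ≤ z ∨ p ∣ D → ¬ p ∣ M → p ∣ N := by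
    intro p hp h3 h hpM
    rw [hN]
    rcases h with h | h
    · by_cases hpf : p = f
      · rw [hpf]
        exact ((dvd_mul_left f 64).mul_right _).mul_right _
      · exact ((hdvd1 p hp h3 h hpf hpM).mul_left _).mul_right _
    · exact h.mul_left _
  have ea : ∀ p : ℕ, p.Prime → 3 ≤ p → p ≤ z ∨ p ∣ D → ¬ p ∣ M → a0 ≡ 1 [MOD p] := by
    intro p hp h3 h hpM
    refine (ha1.of_dvd (hdN p hp h3 h hpM)).trans ?_
    have := hK.ap p hp h3 h
    rw [Nat.ModEq, this, Nat.mod_eq_of_lt (by omega : 1 < p)]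
  have eb : ∀ p : ℕ, p.Prime → 3 ≤ p → p ≤ z ∨ p ∣ D → ¬ p ∣ M → p ≠ f → p ∣ b0 + 1 := by
    intro p hp h3 h hpM hpf
    have h1 := hK.bp p hp h3 h hpf
    have h2 : b0 + 1 ≡ b1 + 1 [MOD p] := (hb1.of_dvd (hdN p hp h3 h hpM)).add_right 1
    rw [Nat.ModEq, h1] at h2
    exact Nat.dvd_of_mod_eq_zero h2
  have hfM : ¬ f ∣ M := by
    intro h
    have := Nat.dvd_gcd h (dvd_refl f)
    rw [hMf] at this
    exact pf.one_lt.ne' (Nat.dvd_one.1 this)
  have ebf : b0 ≡ β [MOD f] := by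
    refine (hb1.of_dvd (hdN f pf (by omega) (Or.inl hz) hfM)).trans ?_
    rw [Nat.ModEq, hK.bf, Nat.mod_eq_of_lt hF.lt]
  have eQ : 64 * f * P1 * M * D = N * M := by rw [hN]; ring
  rw [eQ]
  have hN0 : N ≠ 0 := by
    rw [hN]
    have := pf.pos
    positivity
  have hMdv : ∀ p : ℕ, p.Prime → p ∣ M → 3 ≤ p ∧ p ≤ z := by
    intro p hp h
    refine ⟨?_, (Nat.le_of_dvd hM0 h).trans hMz⟩
    by_contra hcon
    have := hp.two_le
    have h2 : p = 2 := by omega
    subst h2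
    exact (Nat.not_even_iff_odd.2 hMo) (even_iff_two_dvd.2 h)
  have hcopM : ∀ x y : ℕ, x ≡ y [MOD M] → y.Coprime M → ∀ p : ℕ, p.Prime → p ∣ M → ¬ p ∣ x := by
    intro x y hxy hy p hp hpM hpx
    have h1 : x ≡ y [MOD p] := hxy.of_dvd hpM
    have h2 : p ∣ y := (h1.dvd_iff dvd_rfl).1 hpx
    have := Nat.dvd_gcd h2 hpM
    rw [hy] at this
    exact hp.one_lt.ne' (Nat.dvd_one.1 this)
  have a64 : a0 % 64 = 33 := by
    have h := ha1.of_dvd h64N
    have h5 := hK.a64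
    rw [Nat.ModEq] at h
    omega
  have b64 : b0 % 64 = 1 := by
    have h := hb1.of_dvd h64N
    have h5 := hK.b64
    rw [Nat.ModEq] at h
    omega
  refine ⟨a0, b0, ?_⟩
  refine
    { two := h64N.mul_right _
      ne := mul_ne_zero hN0 hM0.ne'
      le := ?_
      dvd := ?_
      a64 := a64
      b64 := b64
      a3 := ?_
      b3 := ?_
      df := ?_
      rcf := ⟨ea f pf (by omega) (Or.inl hz) hfM, ebf⟩
      rcD := ?_
      ca := ?_
      cb := ?_
      dM := dvd_mul_left _ _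
      aM := ha2
      bM := hb2 }
  · intro p hp h
    rcases (hp.dvd_mul).1 h with h | h
    · rcases hpN p hp h with h | h
      · left; omega
      · exact h.1.2
    · exact Or.inl (hMdv p hp h).2
  · intro p hp h
    by_cases hpM : p ∣ M
    · exact hpM.mul_left _
    · refine Dvd.dvd.mul_right ?_ _
      rcases Nat.lt_or_ge p 3 with h3 | h3
      · have := hp.two_le
        have h2 : p = 2 := by omega
        subst h2
        exact (by norm_num : 2 ∣ 64).trans h64N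
      · exact hdN p hp h3 h hpM
  · by_cases h : 3 ∣ M
    · have h1 : a0 ≡ α [MOD 3] := ha2.of_dvd h
      rw [Nat.ModEq, (h3 h).1] at h1
      exact h1
    · exact ea 3 Nat.prime_three le_rfl (Or.inl (by omega)) h
  · by_cases h : 3 ∣ M
    · have h1 : b0 ≡ α' [MOD 3] := hb2.of_dvd h
      rw [Nat.ModEq, (h3 h).2] at h1
      exact h1
    · have := eb 3 Nat.prime_three le_rfl (Or.inl (by omega)) h (by omega)
      omega
  · intro p hp h3 hpz hcon
    by_cases hpM : p ∣ M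
    · exact hd p hp hpM ((hb2.of_dvd hpM).symm.trans (hcon.trans (ha2.of_dvd hpM)))
    · have h10 := hcon.trans (ea p hp h3 hpz hpM)
      by_cases hpf : p = f
      · subst hpf
        have h11 := ebf.symm.trans h10
        rw [Nat.ModEq, Nat.mod_eq_of_lt hF.lt, Nat.mod_eq_of_lt (by omega)] at h11
        exact hF.ne1 h11
      · have h11 := eb p hp h3 hpz hpM hpf
        have h12 : b0 + 1 ≡ 1 + 1 [MOD p] := h10.add_right 1
        have h13 : p ∣ 2 := (h12.dvd_iff dvd_rfl).1 h11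
        have := Nat.le_of_dvd (by norm_num) h13
        omega
  · intro p hp hpD
    have h1 := hDz p hp hpD
    have hpM : ¬ p ∣ M := fun h => by
      have := (hMdv p hp h).2
      omega
    exact ⟨ea p hp (by omega) (Or.inr hpD) hpM, eb p hp (by omega) (Or.inr hpD) hpM (by omega)⟩
  · apply Nat.Coprime.symm
    apply Nat.coprime_of_dvd
    intro p hp h1 h2
    rcases (hp.dvd_mul).1 h1 with h | h
    · rcases hpN p hp h with h | h
      · subst h; omega
      · have := ea p hp h.1.1 h.1.2 h.2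
        have h3 : p ∣ 1 := (this.dvd_iff dvd_rfl).1 h2
        exact hp.one_lt.ne' (Nat.dvd_one.1 h3)
    · exact hcopM a0 α ha2 hα p hp h h2
  · apply Nat.Coprime.symm
    apply Nat.coprime_of_dvd
    intro p hp h1 h2
    rcases (hp.dvd_mul).1 h1 with h | h
    · rcases hpN p hp h with h | h
      · subst h; omega
      · by_cases hpf : p = f
        · subst hpf
          have h3 : p ∣ β := (ebf.dvd_iff dvd_rfl).1 h2
          have h4 := Nat.le_of_dvd (Nat.pos_of_ne_zero hF.ne0) h3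
          have := hF.lt
          omega
        · have := eb p hp h.1.1 h.1.2 h.2 hpf
          have h3 : p ∣ 1 := (Nat.dvd_add_right h2).1 this
          exact hp.one_lt.ne' (Nat.dvd_one.1 h3)
    · exact hcopM b0 α' hb2 hα' p hp h h2

section facts

variable {f β D z Q0 a0 b0 M α α' X : ℕ} {s : Fin 3 → ℕ} {E : Finset ℕ} {t : ℕ × ℕ}

lemma AA_mod64 (hM : ModL f β D z Q0 a0 b0 M α α') (ht : t ∈ AA X Q0 a0 b0 s E) :
    (s 0 * t.1) % 64 = 33 ∧ (s 1 * t.2) % 64 = 1 := by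
  unfold AA at ht
  rw [mem_filter] at ht
  obtain ⟨-, -, -, -, -, -, -, h1, h2, -⟩ := ht
  have h3 : s 0 * t.1 ≡ a0 [MOD 64] := h1.of_dvd hM.two
  have h4 : s 1 * t.2 ≡ b0 [MOD 64] := h2.of_dvd hM.two
  have h5 := hM.a64
  have h6 := hM.b64
  rw [Nat.ModEq] at h3 h4
  exact ⟨by omega, by omega⟩

lemma AA_eq (hz : 2 ≤ z) (hD : Dat z s) (hM : ModL f β D z Q0 a0 b0 M α α') (ht : t ∈ AA X Q0 a0 b0 s E) :
    s 0 * t.1 - s 1 * t.2 = 32 * (s 2 * vv s t) := by
  have hlt := AA_lt ht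
  obtain ⟨h1, h2⟩ := AA_mod64 hM ht
  have h32 : 32 ∣ s 0 * t.1 - s 1 * t.2 := by omega
  unfold AA at ht
  rw [mem_filter] at ht
  obtain ⟨-, -, -, -, -, -, -, -, -, h3, -⟩ := ht
  have hodd : Odd (s 2) := by
    have := hD.odd hz
    rw [Fin.prod_univ_three] at this
    exact (Nat.odd_mul.1 this).2
  have hcop : Nat.Coprime 32 (s 2) := by
    have : Nat.Coprime 2 (s 2) := (Nat.coprime_two_left).2 hodd
    exact Nat.Coprime.pow_left 5 this
  have h4 : 32 * s 2 ∣ s 0 * t.1 - s 1 * t.2 := hcop.mul_dvd_of_dvd_of_dvd h32 h3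
  unfold vv
  rw [← mul_assoc]
  exact (Nat.mul_div_cancel' h4).symm

lemma AA_odd (hz : 2 ≤ z) (hD : Dat z s) (hM : ModL f β D z Q0 a0 b0 M α α') (ht : t ∈ AA X Q0 a0 b0 s E) :
    Odd (vv s t) := by
  have h1 := AA_eq hz hD hM ht
  have hlt := AA_lt ht
  obtain ⟨h2, h3⟩ := AA_mod64 hM ht
  have h4 : Odd (s 2 * vv s t) := by
    rw [Nat.odd_iff]
    omega
  exact (Nat.odd_mul.1 h4).2

lemma AA_small (hz : 2 ≤ z) (hD : Dat z s) (hM : ModL f β D z Q0 a0 b0 M α α') (ht : t ∈ AA X Q0 a0 b0 s E)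
    {p : ℕ} (hp : p.Prime) (hpz : p ≤ z ∨ p ∣ D) : ¬ p ∣ vv s t := by
  intro hpv
  have h1 := AA_eq hz hD hM ht
  have hlt := AA_lt ht
  rcases Nat.lt_or_ge p 3 with h3 | h3
  · have := hp.two_le
    have h2 : p = 2 := by omega
    subst h2
    exact (Nat.not_even_iff_odd.2 (AA_odd hz hD hM ht)) (even_iff_two_dvd.2 hpv)
  · have h4 : p ∣ s 0 * t.1 - s 1 * t.2 := by
      rw [h1]
      exact (hpv.mul_left _).mul_left _
    unfold AA at ht
    rw [mem_filter] at ht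
    obtain ⟨-, -, -, -, -, -, -, h5, h6, -⟩ := ht
    have hpQ := hM.dvd p hp hpz
    have h7 : s 0 * t.1 ≡ a0 [MOD p] := h5.of_dvd hpQ
    have h8 : s 1 * t.2 ≡ b0 [MOD p] := h6.of_dvd hpQ
    have h9 : s 1 * t.2 ≡ s 0 * t.1 [MOD p] := (Nat.modEq_iff_dvd' hlt.le).2 h4
    have h10 : b0 ≡ a0 [MOD p] := h8.symm.trans (h9.trans h7)
    exact hM.df p hp h3 hpz h10

lemma AA_size (hz : 2 ≤ z) (hD : Dat z s) (hM : ModL f β D z Q0 a0 b0 M α α') (ht : t ∈ AA X Q0 a0 b0 s E) :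
    X < 128 * (s 2 * vv s t) ∧ 32 * (s 2 * vv s t) < X := by
  have h1 := AA_eq hz hD hM ht
  have hlt := AA_lt ht
  unfold AA at ht
  rw [mem_filter] at ht
  obtain ⟨-, h0, h00, h2, h3, h4, h5, -⟩ := ht
  have : 0 < s 1 * t.2 := by
    rcases Nat.eq_zero_or_pos (s 1 * t.2) with h | h
    · omega
    · exact h
  omega

end facts

/-- the remainders -/
theorem Rq_le (hCNT : St_CNT) {f β D z Q0 a0 b0 M α α' X : ℕ} {s : Fin 3 → ℕ} {E : Finset ℕ} (hz : 2 ≤ z)
    (hM : ModL f β D z Q0 a0 b0 M α α') (hD : Dat z s)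
    (hE : E ⊆ (∏ j, s j).primeFactors) {q : ℕ}
    (hq : Squarefree q) (hqz : ∀ p ∈ q.primeFactors, z < p)
    (hDs : D.Coprime (∏ j, s j)) (hX : 8 * (s 0 * s 1) * (s 2 * q) ≤ X) :
    Rq (AA X Q0 a0 b0 s E) (vv s) (gg (wD D s)) (mA X Q0 s) q ≤ er X Q0 s q := by
  classical
  have hq0 : q ≠ 0 := hq.ne_zero
  have hq1 : 1 ≤ q := Nat.pos_of_ne_zero hq0
  have hcopQ : ∀ n : ℕ, (∀ p : ℕ, p.Prime → p ∣ n → z < p) → n.Coprime D → n.Coprime Q0 := by
    intro n hn hnD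
    apply Nat.coprime_of_dvd
    intro p hp h1 h2
    have h4 := hn p hp h1
    rcases hM.le p hp h2 with h3 | h3
    · omega
    · have := Nat.dvd_gcd h1 h3
      rw [hnD] at this
      exact hp.one_lt.ne' (Nat.dvd_one.1 this)
  have hsQ : ∀ j, (s j).Coprime Q0 := fun j => hcopQ (s j) (fun p hp h =>
    hD.gt p hp (h.trans (Dat.dvd j))) (hDs.symm.coprime_dvd_left (Dat.dvd j))
  by_cases hqD : q.Coprime D
  swap
  · obtain ⟨p, hp, hpq, hps⟩ := Nat.Prime.not_coprime_iff_dvd.1 hqD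
    have hprod : ∏ p ∈ q.primeFactors, gg (wD D s) p = 0 := by
      apply prod_eq_zero (Nat.mem_primeFactors.2 ⟨hp, hpq, hq0⟩)
      unfold gg
      rw [wD_zero, if_pos ((hps.mul_left _).mul_right _)]
    have hempty : ((AA X Q0 a0 b0 s E).filter (fun i => q ∣ vv s i)) = ∅ := by
      rw [filter_eq_empty_iff]
      intro t ht hqv
      exact AA_small hz hD hM ht hp (Or.inr hps) (hpq.trans hqv)
    unfold Rq
    rw [hempty, hprod]
    simpa using er_nonneg X Q0 s q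
  have hqQ : q.Coprime Q0 := hcopQ q (fun p hp h =>
    hqz p (Nat.mem_primeFactors.2 ⟨hp, h, hq0⟩)) hqD
  by_cases hc : q.Coprime (s 0 * s 1)
  · have h1 := hCNT X Q0 a0 b0 q s E ((by norm_num : 2 ∣ 64).trans hM.two) hM.ne hM.ca hM.cb hsQ
      hD.sqf hE hq1 (Nat.Coprime.mul_right hqQ hc) hX
    unfold Rq
    have hgg : ∏ p ∈ q.primeFactors, gg (wD D s) p =
        ((s 2).totient : ℝ) / ((s 2 * q).totient : ℝ) := by
      have h3 := gg_prod (s := wD D s) (q := q) (by rw [wD_two]; exact hD.ne 2) hq (by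
        rw [wD_zero, wD_one]
        have e : s 0 * D * s 1 = (s 0 * s 1) * D := by ring
        rw [e]
        exact Nat.Coprime.mul_right hc hqD)
      rw [wD_two] at h3
      exact h3
    rw [hgg]
    have h2 : ((AA X Q0 a0 b0 s E).filter (fun i => q ∣ vv s i)) =
        (AA X Q0 a0 b0 s E).filter (fun t => s 2 * q ∣ s 0 * t.1 - s 1 * t.2) := by
      apply filter_congr
      intro t ht
      rw [AA_eq hz hD hM ht]
      have hcop : Nat.Coprime q 32 := by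
        have : Nat.Coprime q 2 := by
          rw [Nat.coprime_comm, Nat.Prime.coprime_iff_not_dvd Nat.prime_two]
          intro h
          have := hqz 2 (Nat.mem_primeFactors.2 ⟨Nat.prime_two, h, hq0⟩)
          omega
        exact Nat.Coprime.pow_right 5 this
      have hs2 : 0 < s 2 := Nat.pos_of_ne_zero (hD.ne 2)
      have e : 32 * (s 2 * vv s t) = s 2 * (32 * vv s t) := by ring
      rw [e, Nat.mul_dvd_mul_iff_left hs2]
      constructor
      · intro h; exact h.mul_left _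
      · intro h; exact hcop.dvd_of_dvd_mul_left h
    rw [h2]
    exact h1
  · -- both sides vanish
    obtain ⟨p, hp, hpq, hps⟩ := Nat.Prime.not_coprime_iff_dvd.1 hc
    have hprod : ∏ p ∈ q.primeFactors, gg (wD D s) p = 0 := by
      apply prod_eq_zero (Nat.mem_primeFactors.2 ⟨hp, hpq, hq0⟩)
      unfold gg
      rw [wD_zero, wD_one, if_pos]
      have e : s 0 * D * s 1 = (s 0 * s 1) * D := by ring
      rw [e]
      exact hps.mul_right _
    have hcop := hD.cop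
    have hempty : ((AA X Q0 a0 b0 s E).filter (fun i => q ∣ vv s i)) = ∅ := by
      rw [filter_eq_empty_iff]
      intro t ht hqv
      have hlt := AA_lt ht
      have h1 := AA_eq hz hD hM ht
      have hpd : p ∣ s 0 * t.1 - s 1 * t.2 := by
        rw [h1]
        exact ((hpq.trans hqv).mul_left _).mul_left _
      unfold AA at ht
      rw [mem_filter] at ht
      obtain ⟨-, hm, hn, k1, k2, k3, k4, -⟩ := ht
      have hs01 : 8 * (s 0 * s 1) ≤ X := by
        refine le_trans ?_ hX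
        apply Nat.le_mul_of_pos_right
        exact Nat.mul_pos (Nat.pos_of_ne_zero (hD.ne 2)) hq1
      have hs0p : 0 < s 0 := Nat.pos_of_ne_zero (hD.ne 0)
      have hs1p : 0 < s 1 := Nat.pos_of_ne_zero (hD.ne 1)
      have n1 : s 0 < t.2 := by
        have : s 1 * s 0 < s 1 * t.2 := by
          have e : s 1 * s 0 = s 0 * s 1 := mul_comm _ _
          omega
        exact Nat.lt_of_mul_lt_mul_left this
      have n2 : s 1 < t.1 := by
        have : s 0 * s 1 < s 0 * t.1 := by omega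
        exact Nat.lt_of_mul_lt_mul_left this
      have hsub : ∀ a b : ℕ, b ≤ a → p ∣ a - b → (p ∣ a ↔ p ∣ b) := by
        intro a b hab h
        obtain ⟨c, hc⟩ : ∃ c, a = b + c := ⟨a - b, by omega⟩
        subst hc
        rw [Nat.add_sub_cancel_left] at h
        exact (Nat.dvd_add_iff_left h).symm
      have hiff := hsub _ _ hlt.le hpd
      rcases (hp.dvd_mul).1 hps with h | h
      · have h2 : p ∣ s 1 * t.2 := hiff.1 (h.mul_right _)
        rcases (hp.dvd_mul).1 h2 with h3 | h3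
        · have := Nat.dvd_gcd h h3
          rw [hcop.1] at this
          exact hp.one_lt.ne' (Nat.dvd_one.1 this)
        · have h4 : p = t.2 := (Nat.prime_dvd_prime_iff_eq hp hn).1 h3
          have := Nat.le_of_dvd hs0p h
          omega
      · have h2 : p ∣ s 0 * t.1 := hiff.2 (h.mul_right _)
        rcases (hp.dvd_mul).1 h2 with h3 | h3
        · have := Nat.dvd_gcd h3 h
          rw [hcop.1] at this
          exact hp.one_lt.ne' (Nat.dvd_one.1 this)
        · have h4 : p = t.1 := (Nat.prime_dvd_prime_iff_eq hp hm).1 h3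
          have := Nat.le_of_dvd hs1p h
          omega
    unfold Rq
    rw [hempty, hprod]
    simpa using er_nonneg X Q0 s q

end Pool.Agent.K1H6.LC
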