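import Pool.Agent.Y535.RZ.SURJ
import Pool.Agent.Y105.RZ.Goods
import Pool.Agent.Y667.QK.K3
import Pool.Agent.Y587.QK.SEL

/-!
# The local conditions give the Selmer groups of the curve and of its twist by `f`
-/

set_option autoImplicit false

namespace Pool.Agent.K1H6.LC

open Finset Pool.Agent.W262.RK Pool.Agent.W307.RT Pool.Agent.W307.RS Pool.Agent.W307.SE
  Pool.Agent.W307.FK Pool.Agent.W214.RK2 Pool.Agent.Y667.RP Pool.Agent.Y667.RZ
  Pool.Agent.Y667.QK Pool.Agent.Y535.RZ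

/-- the point at `f` of the twist by `f` -/
lemma ptf {f : ℕ} [hf : Fact f.Prime] (h8 : f % 8 = 1) {a b d1 d2 β : ℤ} (b1 : jacobiSym β f = 1)
    (b2 : jacobiSym (1 - β) f = -1) (ha : (f : ℤ) ∣ a - 1) (hb : (f : ℤ) ∣ b - β)
    (q1 : Squarefree d1) (q2 : Squarefree d2) (hh : sgn f d1 = false)
    (hg : sgn f d2 = dv f d1) : Loc ℚ_[f] ((f : ℤ) * a) ((f : ℤ) * b) d1 d2 := by
  have h2 : f ≠ 2 := by omega
  obtain ⟨c, hc⟩ : ∃ c : ℤ, c = 1 - β := ⟨_, rfl⟩
  rw [← hc] at b2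
  have jm : ∀ x y : ℤ, (f : ℤ) ∣ x - y → jacobiSym x f = jacobiSym y f := fun x y h => jac_congr h
  have J1 : jacobiSym 1 f = 1 := jacobiSym.one_left f
  have hodd : Odd f := by rw [Nat.odd_iff]; omega
  have Jm : jacobiSym (-1) f = 1 := by
    rw [jacobiSym.at_neg_one hodd, ZMod.χ₄_nat_one_mod_four (by omega)]
  have Jβ : jacobiSym (-β) f = 1 := by
    rw [neg_eq_neg_one_mul, jacobiSym.mul_left, Jm, b1, one_mul]
  have Jc : jacobiSym (-c) f = -1 := by
    rw [neg_eq_neg_one_mul, jacobiSym.mul_left, Jm, b2, one_mul]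
  obtain ⟨a', ha'⟩ := ha
  obtain ⟨b', hb'⟩ := hb
  have hf0 : (f : ℤ) ≠ 0 := by exact_mod_cast hf.out.ne_zero
  cases hv : dv f d1
  · obtain ⟨n1, s1⟩ := dvsgn_false hv
    rw [s1] at hh
    have j1 := dec_one (jac_val n1) hh
    rw [hv] at hg
    cases hw : dv f d2
    · obtain ⟨n2, s2⟩ := dvsgn_false hw
      rw [s2] at hg
      have j2 := dec_one (jac_val n2) hg
      refine loc_j h2 f 1 hf0 0 0 0 (M1 := d1) (M2 := (1 - f * a * f ^ 2) * d2)
        (M3 := (1 - f * a * f ^ 2) * (1 - f * b * f ^ 2)) (by ring) (by ring) (by ring) j1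
        ?_ ?_
      · rw [jacobiSym.mul_left, j2, jm _ 1 ⟨-(a * f ^ 2), by ring⟩, J1]; norm_num
      · rw [jacobiSym.mul_left, jm (1 - f * a * f ^ 2) 1 ⟨-(a * f ^ 2), by ring⟩,
          jm (1 - f * b * f ^ 2) 1 ⟨-(b * f ^ 2), by ring⟩, J1]; norm_num
    · obtain ⟨a2, rfl, n2, s2⟩ := dvsgn_true q2 hw
      rw [s2] at hg
      have j2 := dec_one (jac_val n2) hg
      refine loc_j h2 1 ((f : ℤ) ^ 2) one_ne_zero 1 1 2 (M1 := d1) (M2 := (f - a) * a2)
        (M3 := (f - a) * (f - b)) (by ring) (by ring) (by ring) j1 ?_ ?_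
      · rw [jacobiSym.mul_left, j2, jm _ (-1) ⟨1 - a', by linear_combination -ha'⟩, Jm]; norm_num
      · rw [jacobiSym.mul_left, jm ((f : ℤ) - a) (-1) ⟨1 - a', by linear_combination -ha'⟩,
          jm ((f : ℤ) - b) (-β) ⟨1 - b', by linear_combination -hb'⟩, Jm, Jβ]
        norm_num
  · obtain ⟨a1, rfl, n1, s1⟩ := dvsgn_true q1 hv
    rw [s1] at hh
    have j1 := dec_one (jac_val n1) hh
    rw [hv] at hg
    cases hw : dv f d2
    · obtain ⟨n2, s2⟩ := dvsgn_false hw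
      rw [s2, decide_eq_true_iff] at hg
      refine loc_j h2 1 (f * (a + f * c)) one_ne_zero 1 1 2 (M1 := (a + f * c) * a1)
        (M2 := c * d2) (M3 := (a + f * c) * c * (a - b + f * c)) (by ring)
        (by ring) (by ring) ?_ ?_ ?_
      · rw [jacobiSym.mul_left, j1, jm _ 1 ⟨a' + c, by linear_combination ha'⟩, J1]; norm_num
      · rw [jacobiSym.mul_left, hg, b2]; norm_num
      · rw [jacobiSym.mul_left, jacobiSym.mul_left,
          jm (a + f * c) 1 ⟨a' + c, by linear_combination ha'⟩,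
          jm (a - b + f * c) c ⟨a' - b' + c, by linear_combination ha' - hb' - hc⟩, J1, b2]
        norm_num
    · obtain ⟨a2, rfl, n2, s2⟩ := dvsgn_true q2 hw
      rw [s2, decide_eq_true_iff] at hg
      refine loc_j h2 1 (f * (b + f * c)) one_ne_zero 1 1 2 (M1 := (b + f * c) * a1)
        (M2 := (b - a + f * c) * a2) (M3 := (b + f * c) * c * (b - a + f * c))
        (by ring) (by ring) (by ring) ?_ ?_ ?_
      · rw [jacobiSym.mul_left, j1, jm _ β ⟨b' + c, by linear_combination hb'⟩, b1]; norm_num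
      · rw [jacobiSym.mul_left, hg,
          jm _ (-c) ⟨b' - a' + c, by linear_combination hb' - ha' + hc⟩, Jc]; norm_num
      · rw [jacobiSym.mul_left, jacobiSym.mul_left,
          jm (b + f * c) β ⟨b' + c, by linear_combination hb'⟩,
          jm (b - a + f * c) (-c) ⟨b' - a' + c, by linear_combination hb' - ha' + hc⟩, b1, b2, Jc]
        norm_num

lemma jac_twf {f p : ℕ} (hf : f.Prime) (hp : p.Prime) (hpf : p ≠ f) {x : ℤ} (hx : ¬ (p : ℤ) ∣ x) :
    (jacobiSym (f * x) p = -1 ↔ ¬ (jacobiSym x p = -1 ↔ jacobiSym f p = -1)) := by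
  have : Fact p.Prime := ⟨hp⟩
  have hf' : ¬ (p : ℤ) ∣ (f : ℤ) := by
    intro h
    have h1 : p ∣ f := by exact_mod_cast h
    exact hpf ((Nat.prime_dvd_prime_iff_eq hp hf).1 h1)
  rw [jacobiSym.mul_left]
  rcases jac_val hx with h1 | h1 <;> rcases jac_val hf' with h2 | h2 <;> rw [h1, h2] <;> norm_num

theorem SURJF {f β : ℕ} (hfl : Flip f β) {s : Fin 3 → ℕ} (hs : Squarefree (∏ j, s j))
    (hodd : Odd (∏ j, s j)) (hbig : ∀ p : ℕ, p.Prime → p ∣ ∏ j, s j → f < p)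
    (hdif : (s 0 : ℤ) - s 1 = 32 * s 2) (h0 : s 0 % 8 = 1) (h1 : s 1 % 8 = 1)
    (ha : s 0 % f = 1) (hb : s 1 % f = β) :
    Vt f 1 s (sgF (s 0) (s 1) (∏ j, s j)) ⊆ Sel (s 0 : ℤ) (s 1 : ℤ) ∧
    Vt f f s (sgF (s 0) (s 1) (∏ j, s j)) ⊆ Sel ((f : ℤ) * (s 0 : ℤ)) ((f : ℤ) * (s 1 : ℤ)) := by
  have hG : St_GOODS := Pool.Agent.Y105.RZ.GOODS
  have hpf := hfl.pr
  have hf17 := hfl.ge
  have hfs : ¬ f ∣ ∏ j, s j := fun h => lt_irrefl _ (hbig f hpf h)
  have hd1 : Pool.Agent.Y535.RZ.Dat s 1 := ⟨hs, hodd, Nat.coprime_one_right _, hdif, one_pos⟩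
  have hdf : Pool.Agent.Y535.RZ.Dat s f := ⟨hs, hodd, ((Nat.Prime.coprime_iff_not_dvd hpf).2 hfs).symm, hdif, hpf.pos⟩
  constructor
  · intro d hd
    have hd' : d ∈ VG (1 * ∏ j, s j) (Lt f 1 s (sgF (s 0) (s 1) (∏ j, s j))) := hd
    have hoth := hd1.oth hG (by norm_num) h0 h1 hd'
    rw [Nat.cast_one, one_mul, one_mul] at hoth
    refine ⟨hd'.1, hd'.2.1, hoth.1, fun p hp => ?_⟩
    by_cases hpP : p ∣ ∏ j, s j
    · have hpp := hp.out
      have hpfm : p ∈ (∏ j, s j).primeFactors := Nat.mem_primeFactors.2 ⟨hpp, hpP, hs.ne_zero⟩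
      obtain ⟨e0, e1, e2⟩ := hd1.memE hpp hpP
      have htw : p ∈ twt 1 (∏ j, s j) (sgF (s 0) (s 1) (∏ j, s j)) ↔
          p ∈ sgF (s 0) (s 1) (∏ j, s j) := by
        unfold twt
        rw [mem_filter, Nat.cast_one, jacobiSym.one_left]
        constructor
        · rintro ⟨-, h⟩
          by_contra h'
          exact h ⟨fun h'' => absurd h'' h', fun h'' => absurd h'' (by norm_num)⟩
        · intro h
          exact ⟨hpfm, fun h' => absurd (h'.1 h) (by norm_num)⟩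
      have hL := hd'.2.2.2.2.2.2 p (by rw [one_mul]; exact hpfm)
      unfold Lt at hL
      rw [if_neg (fun h' => hpp.one_lt.ne' (Nat.dvd_one.1 h'))] at hL
      have := hd1.pts (by have := hbig p hpp hpP; omega) hpP hd'.1 hd'.2.1
        (twt 1 (∏ j, s j) (sgF (s 0) (s 1) (∏ j, s j))) hL
        (by intro h; rw [htw, e0 h, Nat.cast_one, one_mul])
        (by intro h; rw [htw, e1 h, Nat.cast_one, one_mul])
        (by intro h; rw [htw, e2 h, Nat.cast_one, one_mul])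
      rwa [Nat.cast_one, one_mul, one_mul] at this
    · exact hoth.2 p (by rwa [one_mul])
  · intro d hd
    have hd' : d ∈ VG (f * ∏ j, s j) (Lt f f s (sgF (s 0) (s 1) (∏ j, s j))) := hd
    have hoth := hdf.oth hG hfl.m8 h0 h1 hd'
    refine ⟨hd'.1, hd'.2.1, hoth.1, fun p hp => ?_⟩
    have hpp := hp.out
    have hfP0 : f * ∏ j, s j ≠ 0 := mul_ne_zero hpf.ne_zero hs.ne_zero
    by_cases hpP : p ∣ ∏ j, s j
    · have hpf' : p ≠ f := by
        rintro rfl
        exact hfs hpP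
      have hpnf : ¬ p ∣ f := fun h => hpf' ((Nat.prime_dvd_prime_iff_eq hpp hpf).1 h)
      have hpfm : p ∈ (∏ j, s j).primeFactors := Nat.mem_primeFactors.2 ⟨hpp, hpP, hs.ne_zero⟩
      obtain ⟨e0, e1, e2⟩ := hdf.memE hpp hpP
      have htw : p ∈ twt f (∏ j, s j) (sgF (s 0) (s 1) (∏ j, s j)) ↔
          ¬ (p ∈ sgF (s 0) (s 1) (∏ j, s j) ↔ jacobiSym f p = -1) := by
        unfold twt
        rw [mem_filter]
        exact and_iff_right hpfm
      have hL := hd'.2.2.2.2.2.2 p (Nat.mem_primeFactors.2 ⟨hpp, hpP.mul_left _, hfP0⟩)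
      unfold Lt at hL
      rw [if_neg hpnf] at hL
      refine hdf.pts (by have := hbig p hpp hpP; omega) hpP hd'.1 hd'.2.1 _ hL ?_ ?_ ?_
      · intro h'
        rw [htw, e0 h', ← jac_twf hpf hpp hpf']
        · rw [mul_neg]
        · rw [dvd_neg, Int.natCast_dvd_natCast]
          exact cop_nd hpp hdf.cop01 h'
      · intro h'
        rw [htw, e1 h', ← jac_twf hpf hpp hpf']
        · rw [mul_neg]
        · rw [dvd_neg, Int.natCast_dvd_natCast]
          exact cop_nd hpp hdf.cop01.symm h'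
      · intro h'
        rw [htw, e2 h', ← jac_twf hpf hpp hpf']
        rw [Int.natCast_dvd_natCast]
        exact fun h'' => cop_nd hpp hdf.cop012.symm h' (h''.mul_right _)
    · by_cases hpf' : p = f
      · subst hpf'
        have hL := hd'.2.2.2.2.2.2 p (Nat.mem_primeFactors.2 ⟨hpf, dvd_mul_right _ _, hfP0⟩)
        unfold Lt at hL
        rw [if_pos (dvd_refl p), decide_eq_true (rfl : p = p), Bool.and_true] at hL
        refine ptf hfl.m8 hfl.b1 hfl.b2 ?_ ?_ hd'.1 hd'.2.1 hL.1 hL.2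
        · have h3 : s 0 ≡ 1 [MOD p] := by
            rw [Nat.ModEq, ha, Nat.mod_eq_of_lt (by omega : 1 < p)]
          have h4 := (Nat.modEq_iff_dvd.1 h3.symm)
          exact_mod_cast h4
        · have h3 : s 1 ≡ β [MOD p] := by
            rw [Nat.ModEq, hb, Nat.mod_eq_of_lt hfl.lt]
          exact Nat.modEq_iff_dvd.1 h3.symm
      · refine hoth.2 p fun h' => ?_
        rcases hpp.dvd_mul.1 h' with h'' | h''
        · exact hpf' ((Nat.prime_dvd_prime_iff_eq hpp hpf).1 h'')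
        · exact hpP h''

end Pool.Agent.K1H6.LC
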