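import Pool.Agent.K1H6.LC.K3
import Pool.Agent.K1H6.LC.Surj
import Pool.Agent.Y655.QK.PAR
import Pool.Agent.Y212.RZ.LAG
import Pool.Agent.Y212.RZ.Low4
import Pool.Agent.Y448.QK.VKN

/-!
# The main argument with prescribed residue classes, part 2: the classification of the pairs
-/

set_option autoImplicit false

namespace Pool.Agent.K1H6.LC

open Finset Filter Pool.Agent.W262.RK Pool.Agent.W307.RT Pool.Agent.W307.RS Pool.Agent.W307.SE
  Pool.Agent.W307.FK Pool.Agent.Y667.RP Pool.Agent.Y667.RZ Pool.Agent.Y667.PA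
  Pool.Agent.Y285.RP Pool.Agent.Y667.QK Pool.Agent.Y667.QK.R

/-- the orders of the two 2-Selmer groups are 4 and 8 -/
def Ex48 (f : ℕ) (x : ℕ × ℕ) : Prop :=
  ((Sel (x.1 : ℤ) (x.2 : ℤ)).ncard = 4 ∧ (Sel ((f : ℤ) * x.1) ((f : ℤ) * x.2)).ncard = 8) ∨
    ((Sel (x.1 : ℤ) (x.2 : ℤ)).ncard = 8 ∧ (Sel ((f : ℤ) * x.1) ((f : ℤ) * x.2)).ncard = 4)

/-- the good pairs in the classes `α`, `α'` modulo `M` -/
def GoodL (M α α' f β D t X : ℕ) (x : ℕ × ℕ) : Prop :=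
  GoodR f β D t X x ∧ x.1 ≡ α [MOD M] ∧ x.2 ≡ α' [MOD M] ∧ (t = 1 → Ex48 f x)

/-- the exact orders of the 2-Selmer groups -/
lemma exact_of {f β D z : ℕ} (hC : Ctx f β D 1 z) {s : Fin 3 → ℕ} (hD : Dat z s)
    (hDs : D.Coprime (∏ j, s j)) (hlt : s 1 < s 0)
    (heq : (s 0 : ℤ) - s 1 = 32 * s 2) (h8 : s 0 % 8 = 1) (h8' : s 1 % 8 = 1)
    (hRC : RC f β (f * D) (s 0) (s 1))
    (hσ : ∀ σ : ℤ, σ = -1 ∨ σ = 2 ∨ σ = -2 → ∃ p : ℕ, p.Prime ∧ p ∣ ∏ j, s j ∧ jacobiSym σ p = -1)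
    (c1 : (Vt f 1 s (sgF (s 0) (s 1) (∏ j, s j))).ncard ≤ 8)
    (c2 : (Vt f (f * 1) s (sgF (s 0) (s 1) (∏ j, s j))).ncard ≤ 8) : Ex48 f (s 0, s 1) := by
  have hSEL : Pool.Agent.Y667.QK.St_SEL := Pool.Agent.Y587.QK.SEL
  have hPAR : Pool.Agent.Y667.QK.St_PAR := Pool.Agent.Y655.QK.PAR Pool.Agent.Y212.RZ.LAG
  have hLOW : St_LOW4 := Pool.Agent.Y212.RZ.LOW4
  have hVN : St_VN := Pool.Agent.Y448.QK.VN
  have hf17 := hC.f17
  have hzf := hC.zf
  have hz2 : 2 ≤ z := by omega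
  have hfp := hC.flip.pr
  have hRm : ∀ τ : ℕ, τ ∣ f * D → RC f β τ (s 0) (s 1) := fun τ hτ q hq =>
    hRC q (Nat.primeFactors_mono hτ hC.adD.sqf.ne_zero hq)
  have hft : f * 1 ∣ f * D := Nat.mul_dvd_mul_left _ hC.tD
  have htd : 1 ∣ f * D := one_dvd _
  have S1 := hSEL f β 1 s hC.flip hC.adt hD.sqf (hD.odd hz2) (hC.copt hDs) heq h8 h8' (hRm 1 htd)
  have S2 := hSEL f β (f * 1) s hC.flip hC.adft hD.sqf (hD.odd hz2) (hC.copft hD hDs) heq h8 h8'
    (hRm _ hft)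
  have F1 := (hVN f 1 s (sgF (s 0) (s 1) (∏ j, s j)) hC.adt hD.sqf (hD.odd hz2) (hC.copt hDs)).1
  have F2 := (hVN f (f * 1) s (sgF (s 0) (s 1) (∏ j, s j)) hC.adft hD.sqf (hD.odd hz2)
    (hC.copft hD hDs)).1
  obtain ⟨k, k', hk, hk', hodd⟩ := hPAR f β 1 s hC.flip hC.adft hD.sqf (hD.odd hz2)
    (hC.copft hD hDs) heq h8 h8' (hRm _ hft) hσ
  have hff : f ∈ (f * D).primeFactors := Nat.mem_primeFactors.2
    ⟨hfp, dvd_mul_right _ _, hC.adD.sqf.ne_zero⟩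
  obtain ⟨ra, rb, -⟩ := hRC f hff
  obtain ⟨T1, T2⟩ := SURJF hC.flip hD.sqf (hD.odd hz2) (fun p hp h => by
    have := hD.gt p hp h
    omega) heq h8 h8' ra (rb rfl)
  rw [Nat.cast_one, one_mul, one_mul] at S1
  rw [mul_one] at S2 F2 hk' c2
  have E1 := Set.Subset.antisymm S1 T1
  have E2 := Set.Subset.antisymm S2 T2
  rw [← E1] at hk c1 F1
  rw [← E2] at hk' c2 F2
  have hs0 : Squarefree (s 0) := hD.sqf.squarefree_of_dvd (Dat.dvd 0)
  have hpos1 : 0 < s 1 := Nat.pos_of_ne_zero (hD.ne 1)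
  have l1 : 4 ≤ (Sel (s 0 : ℤ) (s 1 : ℤ)).ncard := by
    apply hLOW _ _ (Int.squarefree_natCast.2 hs0) _ _ _ F1
    · exact_mod_cast (by omega : 1 < s 0)
    · exact_mod_cast hpos1
    · exact_mod_cast hlt
  have l2 : 4 ≤ (Sel ((f : ℤ) * s 0) ((f : ℤ) * s 1)).ncard := by
    have hfc : f.Coprime (s 0) := (Nat.Prime.coprime_iff_not_dvd hfp).2 fun h => by
      have := hD.gt f hfp (h.trans (Dat.dvd 0))
      omega
    have hsq : Squarefree (f * s 0) := (Nat.squarefree_mul hfc).2 ⟨hfp.squarefree, hs0⟩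
    have e0 : ((f : ℤ) * s 0) = ((f * s 0 : ℕ) : ℤ) := by push_cast; rfl
    have e1 : ((f : ℤ) * s 1) = ((f * s 1 : ℕ) : ℤ) := by push_cast; rfl
    rw [e0, e1] at F2 ⊢
    apply hLOW _ _ (Int.squarefree_natCast.2 hsq) _ _ _ F2
    · have : s 0 ≤ f * s 0 := Nat.le_mul_of_pos_left _ hfp.pos
      exact_mod_cast (by omega : 1 < f * s 0)
    · exact_mod_cast Nat.mul_pos hfp.pos hpos1
    · exact_mod_cast Nat.mul_lt_mul_of_pos_left hlt hfp.pos
  rw [hk] at c1 l1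
  rw [hk'] at c2 l2
  have key : ∀ j : ℕ, 2 ^ j ≤ 8 → 4 ≤ 2 ^ j → j = 2 ∨ j = 3 := by
    intro j h1 h2
    have a1 : j ≤ 3 := (Nat.pow_le_pow_iff_right (by norm_num : 1 < 2)).1 (h1.trans (by norm_num))
    have a2 : 2 ≤ j := (Nat.pow_le_pow_iff_right (by norm_num : 1 < 2)).1
      ((by norm_num : 2 ^ 2 ≤ 4).trans h2)
    omega
  rcases key k c1 l1 with h | h <;> rcases key k' c2 l2 with h' | h' <;> subst h <;> subst h'
  · exact absurd hodd (by decide)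
  · exact Or.inl ⟨hk, hk'⟩
  · exact Or.inr ⟨hk, hk'⟩
  · exact absurd hodd (by decide)

section cls

variable {f β D t z Q0 a0 b0 M α α' X : ℕ} {s : Fin 3 → ℕ} {E : Finset ℕ} {y : ℕ × ℕ}

/-- the primes of `D` do not divide the two primes -/
lemma AA_nd (hM : ModL f β D z Q0 a0 b0 M α α') (hy : y ∈ AA X Q0 a0 b0 s E) :
    ¬ y.1 ∣ D ∧ ¬ y.2 ∣ D := by
  unfold AA at hy
  rw [mem_filter] at hy
  obtain ⟨-, hm, hn, -, -, -, -, k5, k6, -⟩ := hy
  constructor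
  · intro hd
    have hdv := hM.dvd _ hm (Or.inr hd)
    have h1 : s 0 * y.1 ≡ a0 [MOD y.1] := k5.of_dvd hdv
    have h2 : y.1 ∣ a0 := (h1.dvd_iff dvd_rfl).1 (dvd_mul_left _ _)
    have := Nat.dvd_gcd h2 hdv
    rw [hM.ca] at this
    exact hm.one_lt.ne' (Nat.dvd_one.1 this)
  · intro hd
    have hdv := hM.dvd _ hn (Or.inr hd)
    have h1 : s 1 * y.2 ≡ b0 [MOD y.2] := k6.of_dvd hdv
    have h2 : y.2 ∣ b0 := (h1.dvd_iff dvd_rfl).1 (dvd_mul_left _ _)
    have := Nat.dvd_gcd h2 hdv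
    rw [hM.cb] at this
    exact hn.one_lt.ne' (Nat.dvd_one.1 this)

/-- the residue classes of a pair -/
lemma AA_RC (hM : ModL f β D z Q0 a0 b0 M α α') (hC : Ctx f β D t z) (hy : y ∈ AA X Q0 a0 b0 s E) :
    RC f β (f * D) (s 0 * y.1) (s 1 * y.2) := by
  have hf17 := hC.f17
  have hzf := hC.zf
  unfold AA at hy
  rw [mem_filter] at hy
  obtain ⟨-, hm, hn, -, -, -, -, k5, k6, -⟩ := hy
  intro q hq
  have hqp := Nat.prime_of_mem_primeFactors hq
  by_cases hqf : q = f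
  · subst hqf
    have h1 : s 0 * y.1 ≡ a0 [MOD q] := k5.of_dvd (hM.dvd _ hqp (Or.inl hzf))
    have h2 : s 1 * y.2 ≡ b0 [MOD q] := k6.of_dvd (hM.dvd _ hqp (Or.inl hzf))
    refine ⟨?_, fun _ => ?_, fun h => absurd rfl h⟩
    · have h3 := h1.trans hM.rcf.1
      rw [Nat.ModEq, Nat.mod_eq_of_lt (by omega : 1 < q)] at h3
      exact h3
    · have h3 := h2.trans hM.rcf.2
      rw [Nat.ModEq, Nat.mod_eq_of_lt hC.flip.lt] at h3
      exact h3
  · have hqD : q ∣ D := by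
      rcases (hqp.dvd_mul).1 (Nat.dvd_of_mem_primeFactors hq) with h | h
      · exact absurd ((Nat.prime_dvd_prime_iff_eq hqp hC.flip.pr).1 h) hqf
      · exact h
    have h1 : s 0 * y.1 ≡ a0 [MOD q] := k5.of_dvd (hM.dvd _ hqp (Or.inr hqD))
    have h2 : s 1 * y.2 ≡ b0 [MOD q] := k6.of_dvd (hM.dvd _ hqp (Or.inr hqD))
    obtain ⟨r1, r2⟩ := hM.rcD q hqp hqD
    refine ⟨?_, fun h => absurd h hqf, fun _ => ?_⟩
    · have h3 := h1.trans r1
      rw [Nat.ModEq, Nat.mod_eq_of_lt hqp.one_lt] at h3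
      exact h3
    · have h3 : s 1 * y.2 + 1 ≡ b0 + 1 [MOD q] := h2.add_right 1
      exact Nat.mod_eq_zero_of_dvd ((h3.dvd_iff dvd_rfl).2 r2)

/-- the conditions for a good pair -/
lemma goodL_of (hI : InpR) (hC : Ctx f β D t z) (hM : ModL f β D z Q0 a0 b0 M α α')
    (hD : Dat z s) (hDs : D.Coprime (∏ j, s j)) (hy : y ∈ AA X Q0 a0 b0 s E)
    (hl : (vv s y).Prime) (hls : ¬ vv s y ∣ ∏ j, s j) (hne : y.1 ≠ y.2)
    (h1 : ¬ y.1 ∣ ∏ j, s j) (h2 : ¬ y.2 ∣ ∏ j, s j) (h3 : z < y.1) (h4 : z < y.2)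
    (hG : Gd f t s E) :
    GoodL M α α' f β D t X (s 0 * y.1, s 1 * y.2) := by
  have hf17 := hC.f17
  have hzf := hC.zf
  have hz2 : 2 ≤ z := by omega
  have heq := AA_eq hz2 hD hM hy
  have hlt := AA_lt hy
  have hmod := AA_mod64 hM hy
  have hlz : z < vv s y := by
    by_contra hcon
    push Not at hcon
    exact AA_small hz2 hD hM hy hl (Or.inl hcon) dvd_rfl
  have hlD : ¬ vv s y ∣ D := fun h => AA_small hz2 hD hM hy hl (Or.inr h) dvd_rfl
  obtain ⟨hmD, hnD⟩ := AA_nd hM hy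
  have hRC := AA_RC hM hC hy
  have hmem := hy
  unfold AA at hmem
  rw [mem_filter] at hmem
  obtain ⟨-, hm, hn, k1, k2, k3, k4, k5, k6, -, k8⟩ := hmem
  have he' : s 0 * y.1 = s 1 * y.2 + 32 * (s 2 * vv s y) := by omega
  have hml : y.1 ≠ vv s y := by
    intro h
    have h5 : y.1 ∣ s 1 * y.2 := by
      have h6 : y.1 ∣ s 0 * y.1 := dvd_mul_left _ _
      rw [he'] at h6
      refine (Nat.dvd_add_left (dvd_mul_of_dvd_right ?_ _)).1 h6
      rw [← h]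
      exact dvd_mul_left _ _
    rcases (hm.dvd_mul).1 h5 with h6 | h6
    · exact h1 (h6.trans (Dat.dvd 1))
    · exact hne ((Nat.prime_dvd_prime_iff_eq hm hn).1 h6)
  have hnl : y.2 ≠ vv s y := by
    intro h
    have h5 : y.2 ∣ s 0 * y.1 := by
      rw [he', ← h]
      exact dvd_add (dvd_mul_left _ _) (dvd_mul_of_dvd_right (dvd_mul_left _ _) _)
    rcases (hn.dvd_mul).1 h5 with h6 | h6
    · exact h2 (h6.trans (Dat.dvd 0))
    · exact hne ((Nat.prime_dvd_prime_iff_eq hn hm).1 h6).symm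
  have hG' : Gd f t s (sgF ((s 0 * y.1 : ℕ) : ℤ) ((s 1 * y.2 : ℕ) : ℤ) (∏ j, s j)) := by
    rw [k8]; exact hG
  obtain ⟨s', e0, e1, e2, e3, d', cd', c1, c2⟩ := three hI.ng hC hD hDs ((s 0 * y.1 : ℕ) : ℤ)
    ((s 1 * y.2 : ℕ) : ℤ) hm hn hl hne hml hnl h1 h2 hls h3 h4 hlz hmD hnD hlD hG'
  have hQ3 : 3 ∣ Q0 := hM.dvd 3 Nat.prime_three (Or.inl (by omega))
  have hsel := sel_of hI.vn hI.sel hI.par hI.low hI.pare hI.root hI.abs hC d' cd' (by rw [e0, e1]; exact hlt)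
    (by rw [e0, e1, e2, he']; push_cast; ring) (by rw [e0]; omega) (by rw [e1]; omega)
    (by rw [e0, e1]; exact hRC)
    (by
      intro σ hσ
      obtain ⟨p, hp, hps, hpj⟩ := sigma_of hC.adt (hD.odd hz2) hG.1 hσ
      refine ⟨p, hp, ?_, hpj⟩
      rw [e3]
      exact ((hps.mul_right _).mul_right _).mul_right _)
    (by rw [e0, e1]; exact c1) (by rw [e0, e1]; exact c2)
  have hex : t = 1 → Ex48 f (s 0 * y.1, s 1 * y.2) := by
    rintro rfl
    have := exact_of hC d' cd' (by rw [e0, e1]; exact hlt)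
      (by rw [e0, e1, e2, he']; push_cast; ring) (by rw [e0]; omega) (by rw [e1]; omega)
      (by rw [e0, e1]; exact hRC)
      (by
        intro σ hσ
        obtain ⟨p, hp, hps, hpj⟩ := sigma_of hC.adt (hD.odd hz2) hG.1 hσ
        refine ⟨p, hp, ?_, hpj⟩
        rw [e3]
        exact ((hps.mul_right _).mul_right _).mul_right _)
      (by rw [e0, e1]; exact c1) (by rw [e0, e1]; exact c2)
    rw [e0, e1] at this
    exact this
  rw [e0, e1] at hsel
  refine ⟨⟨k1, k2, k3, k4, ?_, ?_, hRC, ?_, hsel⟩, (k5.of_dvd hM.dM).trans hM.aM,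
    (k6.of_dvd hM.dM).trans hM.bM, hex⟩
  · have h5 : s 0 * y.1 ≡ a0 [MOD 3] := k5.of_dvd hQ3
    have h6 := hM.a3
    rw [Nat.ModEq] at h5
    show (s 0 * y.1) % 3 = 1
    omega
  · have h5 : s 1 * y.2 ≡ b0 [MOD 3] := k6.of_dvd hQ3
    have h6 := hM.b3
    rw [Nat.ModEq] at h5
    show (s 1 * y.2) % 3 = 2
    omega
  · show Nat.Coprime (s 0 * y.1) (s 1 * y.2)
    have h5 : (s' 0).Coprime (s' 1) := d'.cop.1
    rw [e0, e1] at h5
    exact h5

/-- classification -/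
theorem cls (hI : InpR) (hC : Ctx f β D t z) (hB : Big z X) (hM : ModL f β D z Q0 a0 b0 M α α')
    (hD : Dat z s) (hDs : D.Coprime (∏ j, s j))
    (hS : Sml X s) (hG : Gd f t s E) (hy : y ∈ AA X Q0 a0 b0 s E)
    (hr : Rg3 X (vv s y)) :
    GoodL M α α' f β D t X (s 0 * y.1, s 1 * y.2) ∨ Exc X s y ∨
      ∃ q ∈ Pt X, ∃ F ∈ Pool.Agent.Y667.QK.BS f t s E q, y ∈ AA X Q0 a0 b0 (up s q) F ∧ Rg3 X (vv (up s q) y) := by
  classical
  have hf17 := hC.f17
  have hzf := hC.zf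
  have hz2 : 2 ≤ z := by omega
  have hX1 : 1 ≤ X := by have := hB.two; omega
  by_cases hexc : Exc X s y
  · exact Or.inr (Or.inl hexc)
  have hne : y.1 ≠ y.2 := fun h => hexc (Or.inl h)
  have hns : ¬ ∃ q : ℕ, q.Prime ∧ (X : ℝ) ^ (1 / 4 : ℝ) ≤ q ∧ q ^ 2 ∣ vv s y :=
    fun h => hexc (Or.inr h)
  have hsize := AA_size hz2 hD hM hy
  have heq := AA_eq hz2 hD hM hy
  obtain ⟨hb1, hb2, hb3⟩ := AA_big hB hS hy
  have hmem := hy
  unfold AA at hmem
  rw [mem_filter] at hmem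
  obtain ⟨hII, hm, hn, k1, k2, k3, k4, k5, k6, k7, k8⟩ := hmem
  have hs2 : 0 < s 2 := Nat.pos_of_ne_zero (hD.ne 2)
  have hz4 : (z : ℝ) ≤ (X : ℝ) ^ (1 / 2 : ℝ) := by
    refine hB.r4.le.trans ?_
    exact Real.rpow_le_rpow_of_exponent_le (by exact_mod_cast hX1) (by norm_num)
  have hzt := hb3 z hz4
  have hv1 : 1 < vv s y := by
    by_contra hcon
    push Not at hcon
    have h1 := hB.le (hS 2) (v := 1) (by
      rw [Nat.cast_one]
      exact Real.one_le_rpow (by exact_mod_cast hX1) (by norm_num))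
    have h2 : s 2 * vv s y ≤ s 2 * 1 := Nat.mul_le_mul_left _ hcon
    omega
  have hvX : vv s y < X := by
    have : vv s y ≤ s 2 * vv s y := Nat.le_mul_of_pos_left _ hs2
    omega
  have hgt : ∀ p : ℕ, p.Prime → p ∣ vv s y → ∀ j, s j < p := by
    intro p hp h j
    have h1 := hr p hp h
    have h0 := third hX1
    have h2 := hS j
    have h3 := hB.k4
    have : (s j : ℝ) < p := by linarith
    exact_mod_cast this
  rcases class3 hv1 hvX hr with h | h | h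
  · left
    exact goodL_of hI hC hM hD hDs hy h (nd_of_gt h (hgt _ h dvd_rfl) hD) hne
      (nd_of_gt hm hb1 hD) (nd_of_gt hn hb2 hD) hzt.1 hzt.2 hG
  · obtain ⟨q, h5, h6, h7⟩ := h
    exact absurd ⟨q, h5, (third hX1).trans h6, h7⟩ hns
  · obtain ⟨q1, q2, hq1, hq2, hq12, hl, hr1, hr2⟩ := h
    have hq1v : q1 ∣ vv s y := by rw [hl]; exact dvd_mul_right _ _
    have hq1X : q1 < X := by
      have : q1 ≤ vv s y := Nat.le_of_dvd (by omega) hq1v
      omega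
    have hPt : q1 ∈ Pt X := by
      unfold Pt
      rw [mem_filter, mem_Icc]
      exact ⟨⟨hq1.one_lt.le, hq1X.le⟩, hq1, hr1, hr2⟩
    have hq1s : ¬ q1 ∣ ∏ j, s j :=
      nd_of_gt hq1 (hgt q1 hq1 hq1v) hD
    have hq2s : ¬ q2 ∣ ∏ j, s j :=
      nd_of_gt hq2 (hgt q2 hq2 (by rw [hl]; exact dvd_mul_left _ _)) hD
    have hq1z : z < q1 := by
      have h1 := hB.r4
      have h0 := third hX1
      have : (z : ℝ) < q1 := by linarith
      exact_mod_cast this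
    have hq1D : ¬ q1 ∣ D := fun h => AA_small hz2 hD hM hy hq1 (Or.inr h) hq1v
    have hD' := Dat_up hD hq1 hq1z hq1s
    have hDs' : D.Coprime (∏ j, up s q1 j) := by
      rw [up_prod]
      exact Nat.Coprime.mul_right hDs ((Nat.Prime.coprime_iff_not_dvd hq1).2 hq1D).symm
    set F := sgF ((s 0 * y.1 : ℕ) : ℤ) ((s 1 * y.2 : ℕ) : ℤ) (∏ j, up s q1 j) with hF
    have heq' : s 0 * y.1 - s 1 * y.2 = 32 * ((s 2 * q1) * q2) := by
      rw [heq, hl]; ring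
    have htF : y ∈ AA X Q0 a0 b0 (up s q1) F := by
      unfold AA
      rw [mem_filter, up_zero, up_one, up_two]
      refine ⟨hII, hm, hn, k1, k2, k3, k4, k5, k6, ?_, rfl⟩
      rw [heq']
      exact (dvd_mul_right _ _).mul_left _
    have hFE : F = E ∨ F = insert q1 E := by
      rw [hF, up_prod]
      have := sgF_up ((s 0 * y.1 : ℕ) : ℤ) ((s 1 * y.2 : ℕ) : ℤ) (∏ j, s j) q1 hD.sqf.ne_zero hq1
      rw [k8] at this
      exact this
    have hvv : vv (up s q1) y = q2 := by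
      have h1 := AA_eq hz2 hD' hM htF
      rw [up_zero, up_one, up_two, heq'] at h1
      have h2 : 0 < 32 * (s 2 * q1) := by have := hq1.pos; positivity
      have h3 : 32 * (s 2 * q1) * q2 = 32 * (s 2 * q1) * vv (up s q1) y := by
        rw [mul_assoc, h1, ← mul_assoc]
      exact (Nat.eq_of_mul_eq_mul_left h2 h3).symm
    by_cases hFb : Gd f t (up s q1) F
    · left
      have hq1m : ¬ y.1 ∣ ∏ j, up s q1 j := by
        rw [up_prod]
        intro h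
        rcases (hm.dvd_mul).1 h with h | h
        · exact nd_of_gt hm hb1 hD h
        · have h1 := (Nat.prime_dvd_prime_iff_eq hm hq1).1 h
          have := (hb3 q1 hr2).1
          omega
      have hq1n : ¬ y.2 ∣ ∏ j, up s q1 j := by
        rw [up_prod]
        intro h
        rcases (hn.dvd_mul).1 h with h | h
        · exact nd_of_gt hn hb2 hD h
        · have h1 := (Nat.prime_dvd_prime_iff_eq hn hq1).1 h
          have := (hb3 q1 hr2).2
          omega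
      have hq12' : ¬ vv (up s q1) y ∣ ∏ j, up s q1 j := by
        rw [up_prod, hvv]
        intro h
        rcases (hq2.dvd_mul).1 h with h | h
        · exact hq2s h
        · have h1 := (Nat.prime_dvd_prime_iff_eq hq2 hq1).1 h
          omega
      have h5 := goodL_of hI hC hM hD' hDs' htF (by rw [hvv]; exact hq2) hq12' hne hq1m hq1n
        hzt.1 hzt.2 hFb
      rw [up_zero, up_one] at h5
      exact h5
    · right; right
      refine ⟨q1, hPt, F, ?_, htF, ?_⟩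
      · unfold Pool.Agent.Y667.QK.BS
        rw [mem_filter, mem_insert, mem_singleton]
        exact ⟨hFE, hFb⟩
      · rw [hvv]
        intro p hp hpq
        rw [(Nat.prime_dvd_prime_iff_eq hp hq2).1 hpq]
        have : (q1 : ℝ) ≤ q2 := by exact_mod_cast hq12.le
        linarith

end cls

end Pool.Agent.K1H6.LC
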