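import Pool.Agent.K1H6.LC.K6

/-!
# The main argument with prescribed residue classes, part 3: summation over the data
-/

set_option autoImplicit false

namespace Pool.Agent.K1H6.LC

open Finset Filter Pool.Agent.W262.RK Pool.Agent.W307.RT Pool.Agent.W307.RS Pool.Agent.W307.SE
  Pool.Agent.W307.FK Pool.Agent.Y667.RP Pool.Agent.Y667.RZ Pool.Agent.Y667.PA
  Pool.Agent.Y285.RP Pool.Agent.Y667.QK Pool.Agent.Y667.QK.R

open Pool.Agent.Y667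

open Classical in
/-- **MAINT** with the root numbers and prescribed classes modulo `M` -/
def St_MAINTL : Prop := ∀ f β M α α' : ℕ, Flip f β → 0 < M → Odd M → M.Coprime f → α.Coprime M →
  α'.Coprime M → (∀ p : ℕ, p.Prime → p ∣ M → ¬ α' ≡ α [MOD p]) →
  (3 ∣ M → α % 3 = 1 ∧ α' % 3 = 2) → ∀ m : ℕ, ∃ c : ℝ, 0 < c ∧ ∃ ε : ℝ, 0 < ε ∧ ∃ z : ℕ,
  ∀ D : ℕ, AdT (f * D) → (∀ q ∈ D.primeFactors, z < q) → ∑ q ∈ D.primeFactors, 1 / (q : ℝ) ≤ ε →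
  ∃ X0 : ℕ, ∀ X : ℕ, X0 ≤ X → ∀ t ∈ D.divisors, t.primeFactors.card ≤ m →
    c * (X : ℝ) ^ 2 / (D : ℝ) ^ 2 ≤
      (((Icc 1 X ×ˢ Icc 1 X).filter (GoodL M α α' f β D t X)).card : ℝ)

/-- uniqueness of the representation -/
theorem uniq {f β D z Q0 a0 b0 M α α' X : ℕ} {s s' : Fin 3 → ℕ} {E E' : Finset ℕ} {t t' : ℕ × ℕ} (hz : 2 ≤ z)
    (hB : Big z X) (hM : ModL f β D z Q0 a0 b0 M α α') (hD : Dat z s) (hD' : Dat z s') (hS : Sml X s)
    (hS' : Sml X s') (ht : t ∈ AA X Q0 a0 b0 s E) (ht' : t' ∈ AA X Q0 a0 b0 s' E')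
    (hr : Rg X (vv s t)) (hr' : Rg X (vv s' t')) (h1 : s 0 * t.1 = s' 0 * t'.1)
    (h2 : s 1 * t.2 = s' 1 * t'.2) : s = s' ∧ E = E' ∧ t = t' := by
  obtain ⟨-, -, b1⟩ := AA_big hB hS ht
  obtain ⟨-, -, b2⟩ := AA_big hB hS' ht'
  have m1 := ht
  have m2 := ht'
  unfold AA at m1 m2
  rw [mem_filter] at m1 m2
  obtain ⟨-, p1, p2, -, -, -, -, -, -, -, g1⟩ := m1
  obtain ⟨-, p3, p4, -, -, -, -, -, -, -, g2⟩ := m2
  have key : ∀ (a b m n : ℕ), m.Prime → n.Prime → b ≠ 0 → b < m → a * m = b * n →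
      m = n ∧ a = b := by
    intro a b m n hm hn hb0 hbm h
    have h3 : m ∣ b * n := ⟨a, by rw [← h, mul_comm]⟩
    have h4 : m = n := by
      rcases (hm.dvd_mul).1 h3 with h5 | h5
      · have := Nat.le_of_dvd (Nat.pos_of_ne_zero hb0) h5
        omega
      · exact (Nat.prime_dvd_prime_iff_eq hm hn).1 h5
    refine ⟨h4, ?_⟩
    rw [← h4] at h
    exact Nat.eq_of_mul_eq_mul_right hm.pos h
  obtain ⟨e1, e0⟩ := key (s 0) (s' 0) t.1 t'.1 p1 p3 (hD'.ne 0)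
    ((b1 (s' 0) ((hS' 0).trans hB.half)).1) h1
  obtain ⟨e2, e3⟩ := key (s 1) (s' 1) t.2 t'.2 p2 p4 (hD'.ne 1)
    ((b1 (s' 1) ((hS' 1).trans hB.half)).2) h2
  have htt : t = t' := Prod.ext e1 e2
  have q1 := AA_eq hz hD hM ht
  have q2 := AA_eq hz hD' hM ht'
  have q3 : s 2 * vv s t = s' 2 * vv s' t' := by
    have : 32 * (s 2 * vv s t) = 32 * (s' 2 * vv s' t') := by
      rw [← q1, ← q2, h1, h2]
    omega
  have hcop : ∀ (x l : ℕ), x ≠ 0 → (x : ℝ) ≤ (X : ℝ) ^ (1 / 2000 : ℝ) → Rg X l → x.Coprime l := by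
    intro x l hx0 hx hl
    apply Nat.coprime_of_dvd
    intro p hp h3 h4
    have h5 := hl p hp h4
    have h6 := Nat.le_of_dvd (Nat.pos_of_ne_zero hx0) h3
    have h7 : (p : ℝ) ≤ x := by exact_mod_cast h6
    have := hB.k4
    linarith
  have d1 : s 2 ∣ s' 2 := by
    have h3 : s 2 ∣ s' 2 * vv s' t' := ⟨vv s t, q3.symm⟩
    exact (hcop (s 2) _ (hD.ne 2) (hS 2) hr').dvd_of_dvd_mul_right h3
  have d2 : s' 2 ∣ s 2 := by
    have h3 : s' 2 ∣ s 2 * vv s t := ⟨vv s' t', q3⟩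
    exact (hcop (s' 2) _ (hD'.ne 2) (hS' 2) hr).dvd_of_dvd_mul_right h3
  have e4 : s 2 = s' 2 := Nat.dvd_antisymm d1 d2
  have hss : s = s' := by
    funext j
    fin_cases j
    · exact e0
    · exact e3
    · exact e4
  refine ⟨hss, ?_, htt⟩
  rw [← g1, ← g2, h1, h2, hss]

theorem card_bound {f β D t z Q0 a0 b0 M α α' X : ℕ} (hz : 2 ≤ z) (hB : Big z X) (hM : ModL f β D z Q0 a0 b0 M α α')
    (T : Finset (ℕ × ℕ)) (F : (Fin 3 → ℕ) → Finset ℕ → Finset (ℕ × ℕ))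
    (TT : Finset (Fin 3 → ℕ)) (hTT : TT ⊆ Trip z ((X : ℝ) ^ (1 / 2000 : ℝ)))
    (hF : ∀ s ∈ TT, ∀ E ∈ Pool.Agent.Y667.QK.GZ f t s, ∀ y ∈ F s E,
      y ∈ AA X Q0 a0 b0 s E ∧ Rg X (vv s y) ∧ (s 0 * y.1, s 1 * y.2) ∈ T) :
    ∑ s ∈ TT, ∑ E ∈ Pool.Agent.Y667.QK.GZ f t s, ((F s E).card : ℝ) ≤ (T.card : ℝ) := by
  classical
  have h1 : ∑ s ∈ TT, ∑ E ∈ Pool.Agent.Y667.QK.GZ f t s, ((F s E).card : ℝ) =
      (((TT.sigma (Pool.Agent.Y667.QK.GZ f t)).sigma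
        (fun i => F i.1 i.2)).card : ℝ) := by
    rw [card_sigma, sum_sigma]
    push_cast
    rfl
  rw [h1]
  have h2 : ((TT.sigma (Pool.Agent.Y667.QK.GZ f t)).sigma
        (fun i => F i.1 i.2)).card ≤ T.card := by
    apply card_le_card_of_injOn (fun x => (x.1.1 0 * x.2.1, x.1.1 1 * x.2.2))
    · rintro ⟨⟨s, E⟩, y⟩ hx
      rw [mem_coe, mem_sigma, mem_sigma] at hx
      exact (hF s hx.1.1 E hx.1.2 y hx.2).2.2
    · rintro ⟨⟨s, E⟩, y⟩ hx ⟨⟨s', E'⟩, y'⟩ hx' h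
      rw [mem_coe, mem_sigma, mem_sigma] at hx hx'
      obtain ⟨a1, a2, -⟩ := hF s hx.1.1 E hx.1.2 y hx.2
      obtain ⟨b1, b2, -⟩ := hF s' hx'.1.1 E' hx'.1.2 y' hx'.2
      obtain ⟨d1, d2⟩ := Trip_dat (hTT hx.1.1)
      obtain ⟨d3, d4⟩ := Trip_dat (hTT hx'.1.1)
      simp only [Prod.mk.injEq] at h
      obtain ⟨e1, e2, e3⟩ := uniq hz hB hM d1 d3 d2 d4 a1 b1 a2 b2 h.1 h.2
      subst e1 e2 e3
      rfl
  exact_mod_cast h2


section aux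

private lemma aux1 {cG L : ℝ} (hcG : 0 < cG) (k8 : 2000 ≤ L * cG) (k10 : L ≤ L ^ 3) :
    1000 ≤ cG / 2 * L ^ 3 := by nlinarith

private lemma aux2 {c1 q X : ℝ} (h1 : 32 ≤ q * c1) : 8 * X ^ 2 ≤ c1 / 4 * X ^ 2 * q := by
  nlinarith [sq_nonneg X]

private lemma aux3 {c1 L : ℝ} (hc1 : 0 < c1) (h2 : 16 ≤ L * c1) (h3 : 1 ≤ L) :
    4 ≤ c1 / 4 * L ^ 2 := by nlinarith

private lemma aux4 {c cG u v X : ℝ} (hc : 0 < c) (hcG : 0 < cG) (hu : 0 < u) (huv : u ≤ v) :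
    c * (cG / 2 / (256 * v)) / 2 * X ^ 2 ≤ c * (cG / 2 / (256 * u)) / 2 * X ^ 2 := by
  gcongr

private lemma aux5 {k c a b L : ℝ} (hk : 0 ≤ k) (hc : 0 < c) (hL : 0 < L) (hab : a ≤ b) :
    k * (c * (a / L)) ≤ k * (c * (b / L)) := by gcongr

private lemma aux6 {w P k w' : ℝ} (hw : 0 ≤ w) (hP : 0 ≤ P) (hk : k ≤ w') :
    w * P * k ≤ w * P * w' := by gcongr

private lemma aux7 {L a b : ℝ} (hL : 0 < L) (hab : a ≤ b) :
    2 * (L * (2 * a)) ≤ 2 * (L * (2 * b)) := by gcongr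

private lemma aux8 {c X φ L : ℝ} (hc : 0 < c) (hL : 0 < L) :
    0 ≤ c * (X ^ 2 / (256 * φ ^ 2) / L ^ 3) := by positivity

private lemma aux11 {X L : ℝ} (hL : 0 < L) : 2 * (L * (2 * (X ^ 2 / L ^ 3))) = 4 / L ^ 2 * X ^ 2 := by
  field_simp
  ring

private lemma aux9 (c A L m k : ℝ) :
    c * (A / L ^ 3) * (m * k) = k * (c * ((A / L ^ 2 * m) / L)) := by ring

private lemma aux10 {c cG φ X L : ℝ} (hL : 0 < L) :
    c * (cG / 2 / (256 * φ ^ 2)) * X ^ 2 = c * (X ^ 2 / (256 * φ ^ 2) / L ^ 3) * (cG / 2 * L ^ 3) := by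
  field_simp

end aux

open Classical in
theorem MAINTL (hSV : St_SV3) (hCNT : St_CNT) (hERR : St_ERR) (hEE : St_EE) (hGD : Pool.Agent.Y667.QK.St_GD)
    (hI : InpR) (hHALF : St_HALFt) : St_MAINTL := by
  intro f β M α α' hF hM0 hMo hMf hα hα' hd h3 m
  have hf17 := hF.ge
  obtain ⟨z1, hz13, hDATA⟩ := DATA3 hSV hCNT hI hHALF f β hF
  obtain ⟨z0, -, hGD⟩ := hGD f hF.pr hF.m8
  obtain ⟨z, hzdef⟩ : ∃ z : ℕ, z = max (max z1 z0) M := ⟨_, rfl⟩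
  have hzz1 : z1 ≤ z := hzdef ▸ (le_max_left _ _).trans (le_max_left _ _)
  have hzz0 : z0 ≤ z := hzdef ▸ (le_max_right _ _).trans (le_max_left _ _)
  have hMz : M ≤ z := hzdef ▸ le_max_right _ _
  have hz2 : 2 ≤ z := by omega
  have hfz : f ≤ z := hz13.trans hzz1
  obtain ⟨c, hc, hD⟩ := hDATA z hzz1
  obtain ⟨cG, hcG, ε, hε, hG⟩ := hGD z hzz0 (1 / 2000) (by norm_num) m
  obtain ⟨Qz, hQz, hmod⟩ := exists_modL hF hfz hM0 hMz hMo hMf hα hα' hd h3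
  have hQzr : (0 : ℝ) < Qz := by exact_mod_cast hQz
  refine ⟨c * (cG / 2 / (256 * (Qz : ℝ) ^ 2)) / 2, by positivity, ε, hε, z,
    fun D hAD hDz hDε => ?_⟩
  have hD0 : D ≠ 0 := by
    rintro rfl
    exact hAD.sqf.ne_zero (mul_zero _)
  have hDp : ∀ p : ℕ, p.Prime → p ∣ D → z < p := fun p hp h =>
    hDz p (Nat.mem_primeFactors.2 ⟨hp, h, hD0⟩)
  obtain ⟨X1, hD⟩ := hD D
  obtain ⟨X2, hG⟩ := hG D hAD hDz hDε
  obtain ⟨a0, b0, hM⟩ := hmod D hD0 hDp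
  obtain ⟨Q0, hQ0⟩ : ∃ Q0 : ℕ, Q0 = Qz * D := ⟨_, rfl⟩
  rw [← hQ0] at hM
  obtain ⟨X3, hE⟩ := hERR Q0 1 3 hM.ne
  obtain ⟨X4, -, hP⟩ := pMN
  have hφ : (0 : ℝ) < Q0.totient := by
    exact_mod_cast Nat.totient_pos.2 (Nat.pos_of_ne_zero hM.ne)
  obtain ⟨c1, hc1⟩ : ∃ c1 : ℝ, c1 = c * (cG / 2 / (256 * (Q0.totient : ℝ) ^ 2)) := ⟨_, rfl⟩
  have hc1pos : 0 < c1 := by
    rw [hc1]
    exact mul_pos hc (div_pos (half_pos hcG) (mul_pos (by norm_num) (pow_pos hφ 2)))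
  have v1 := (pow_tendsto (e := 1 / 4) (by norm_num)).eventually_ge_atTop (32 / c1 + 8 : ℝ)
  have v2 := log_tendsto.eventually_ge_atTop (16 / c1 + 1 + 2000 / cG : ℝ)
  have hR0 : ∀ t : ℕ, ∃ X6 : ℕ, t ∈ D.divisors → ∀ X : ℕ, X6 ≤ X →
      ∑ s ∈ Trip z ((X : ℝ) ^ (1 / 2000 : ℝ)), (∏ j, 1 / (s j : ℝ)) *
        Dsc X (8 * (f * t) * ∏ j, s j) ≤ 1 := by
    intro t
    by_cases ht : t ∈ D.divisors
    · have ht0 : 0 < t := Nat.pos_of_mem_divisors ht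
      obtain ⟨X6, h6⟩ := dsc_rare hEE z (8 * (f * t)) (by positivity)
      exact ⟨X6, fun _ => h6⟩
    · exact ⟨0, fun h => absurd h ht⟩
  choose X6f hX6f using hR0
  obtain ⟨X6, hX6⟩ : ∃ X6 : ℕ, X6 = D.divisors.sup X6f := ⟨_, rfl⟩
  obtain ⟨X5, hX5⟩ := (v1.and v2).exists_forall_of_atTop
  refine ⟨max (max (max (max X1 X2) (max X3 X4)) X5) X6, fun X hX' t ht htm => ?_⟩
  have hC : Ctx f β D t z := ⟨hF, hAD, (Nat.mem_divisors.1 ht).1, hDp, hfz⟩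
  have hX : max (max (max X1 X2) (max X3 X4)) X5 ≤ X := (le_max_left _ _).trans hX'
  have hR := hX6f t ht X (by
    have h1 : X6f t ≤ X6 := by rw [hX6]; exact Finset.le_sup ht
    exact h1.trans ((le_max_right _ _).trans hX'))
  have hX1 : X1 ≤ X := (((le_max_left _ _).trans (le_max_left _ _)).trans (le_max_left _ _)).trans hX
  have hX2 : X2 ≤ X := (((le_max_right _ _).trans (le_max_left _ _)).trans (le_max_left _ _)).trans hX
  have hX3 : X3 ≤ X := (((le_max_left _ _).trans (le_max_right _ _)).trans (le_max_left _ _)).trans hX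
  have hX4 : X4 ≤ X := (((le_max_right _ _).trans (le_max_right _ _)).trans (le_max_left _ _)).trans hX
  obtain ⟨w1, w2⟩ := hX5 X ((le_max_right _ _).trans hX)
  obtain ⟨hB, hDX⟩ := hD X hX1
  have hG' := hG X hX2 t ht htm
  have hE' := hE X hX3
  have hX2n := hB.two
  have hXr : (0 : ℝ) < X := Nat.cast_pos.2 (by omega)
  have hL : 0 < Real.log X := Real.log_pos (by exact_mod_cast (by omega : 1 < X))
  set L := Real.log X with hLdef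
  set TP := Trip z ((X : ℝ) ^ (1 / 2000 : ℝ)) with hTP
  set TR := TP.filter (fun s => Nat.Coprime D (∏ j, s j)) with hTR
  have hTRP : TR ⊆ TP := filter_subset _ _
  set TT := TR.filter (fun s => Dsc X (8 * (f * t) * ∏ j, s j) ≤ 1 / 1000) with hTT
  have hTsub : TT ⊆ TP := (filter_subset _ _).trans hTRP
  have hTcop : ∀ s ∈ TT, D.Coprime (∏ j, s j) := fun s hs =>
    (mem_filter.1 (mem_filter.1 hs).1).2
  set G : (Fin 3 → ℕ) → Finset ℕ → Finset (ℕ × ℕ) := fun s E =>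
    (AA X Q0 a0 b0 s E).filter (fun y => Rg3 X (vv s y) ∧ GoodL M α α' f β D t X (s 0 * y.1, s 1 * y.2)) with hGdef
  set Ex : (Fin 3 → ℕ) → Finset ℕ → Finset (ℕ × ℕ) := fun s E =>
    (AA X Q0 a0 b0 s E).filter (fun y => Rg3 X (vv s y) ∧ Exc X s y) with hExdef
  -- the inequality for one datum
  have hdat : ∀ s ∈ TT, ∀ E ∈ Pool.Agent.Y667.QK.GZ f t s, c * (mA X Q0 s / L) ≤ ((G s E).card : ℝ) +
      ((Ex s E).card : ℝ) + 2 * (L * Er X Q0 z s) := by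
    intro s hs' E hE
    have hs := hTsub hs'
    obtain ⟨d1, d2⟩ := Trip_dat hs
    unfold Pool.Agent.Y667.QK.GZ at hE
    rw [mem_filter, mem_powerset] at hE
    exact hDX t Q0 a0 b0 M α α' s E hC hM d1 (hTcop s hs') d2 hE.1 hE.2 (mem_filter.1 hs').2
  have hsum : ∑ s ∈ TT, ∑ E ∈ Pool.Agent.Y667.QK.GZ f t s, c * (mA X Q0 s / L) ≤ ∑ s ∈ TT, ∑ E ∈ Pool.Agent.Y667.QK.GZ f t s,
      (((G s E).card : ℝ) + ((Ex s E).card : ℝ) + 2 * (L * Er X Q0 z s)) :=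
    sum_le_sum fun s hs => sum_le_sum fun E hE => hdat s hs E hE
  -- the lower bound of the left side
  have hlow : c1 * (X : ℝ) ^ 2 ≤ ∑ s ∈ TT, ∑ E ∈ Pool.Agent.Y667.QK.GZ f t s, c * (mA X Q0 s / L) := by
    have h1 : ∀ s ∈ TT, c * ((X : ℝ) ^ 2 / (256 * (Q0.totient : ℝ) ^ 2) / L ^ 3) *
        (mu s * ((Pool.Agent.Y667.QK.GZ f t s).card : ℝ)) ≤ ∑ E ∈ Pool.Agent.Y667.QK.GZ f t s, c * (mA X Q0 s / L) := by
      intro s hs
      obtain ⟨d1, d2⟩ := Trip_dat (hTsub hs)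
      rw [sum_const, nsmul_eq_mul]
      have h2 := hP X hX4 (s 0) (s 1) (Nat.pos_of_ne_zero (d1.ne 0))
        (Nat.pos_of_ne_zero (d1.ne 1)) ((d2 0).trans hB.half) ((d2 1).trans hB.half)
      have h3 := mA_low hB hM.ne d1 h2.1 h2.2
      have h4 : (0 : ℝ) ≤ ((Pool.Agent.Y667.QK.GZ f t s).card : ℝ) := Nat.cast_nonneg _
      calc c * ((X : ℝ) ^ 2 / (256 * (Q0.totient : ℝ) ^ 2) / L ^ 3) * (mu s * ((Pool.Agent.Y667.QK.GZ f t s).card : ℝ)) =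
            ((Pool.Agent.Y667.QK.GZ f t s).card : ℝ) * (c * (((X : ℝ) ^ 2 / (256 * (Q0.totient : ℝ) ^ 2) / L ^ 2 *
              mu s) / L)) := aux9 _ _ _ _ _
        _ ≤ ((Pool.Agent.Y667.QK.GZ f t s).card : ℝ) * (c * (mA X Q0 s / L)) := aux5 h4 hc hL h3
    have h5 := sum_le_sum h1
    rw [← mul_sum] at h5
    refine le_trans ?_ h5
    have h6 : cG / 2 * L ^ 3 ≤ ∑ s ∈ TT, mu s * ((Pool.Agent.Y667.QK.GZ f t s).card : ℝ) := by
      have hG'' : cG * L ^ 3 ≤ ∑ s ∈ TR, mu s * ((Pool.Agent.Y667.QK.GZ f t s).card : ℝ) := by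
        refine hG'.trans (le_of_eq (sum_congr rfl fun s _ => ?_))
        rw [Pool.Agent.Y667.QK.GZ_eq]
      have hbad : ∑ s ∈ TR.filter (fun s => ¬ Dsc X (8 * (f * t) * ∏ j, s j) ≤ 1 / 1000),
          mu s * ((Pool.Agent.Y667.QK.GZ f t s).card : ℝ) ≤ 1000 := by
        have k1 : ∀ s ∈ TR.filter (fun s => ¬ Dsc X (8 * (f * t) * ∏ j, s j) ≤ 1 / 1000),
            mu s * ((Pool.Agent.Y667.QK.GZ f t s).card : ℝ) ≤
              1000 * ((∏ j, 1 / (s j : ℝ)) * Dsc X (8 * (f * t) * ∏ j, s j)) := by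
          intro s hs
          rw [mem_filter, not_le] at hs
          have k2 : ((Pool.Agent.Y667.QK.GZ f t s).card : ℝ) ≤ 2 ^ (∏ j, s j).primeFactors.card := by
            exact_mod_cast GZ_card f t s
          have k3 : 0 ≤ ∏ j, 1 / (s j : ℝ) := prod_nonneg fun j _ => one_div_nonneg.2 (Nat.cast_nonneg _)
          have k4 : mu s * ((Pool.Agent.Y667.QK.GZ f t s).card : ℝ) ≤ ∏ j, 1 / (s j : ℝ) := by
            unfold mu
            calc (1 / 2 : ℝ) ^ (∏ j, s j).primeFactors.card * (∏ j, 1 / (s j : ℝ)) *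
                  ((Pool.Agent.Y667.QK.GZ f t s).card : ℝ) ≤ (1 / 2 : ℝ) ^ (∏ j, s j).primeFactors.card *
                  (∏ j, 1 / (s j : ℝ)) * 2 ^ (∏ j, s j).primeFactors.card := aux6 (pow_nonneg (by norm_num) _) k3 k2
              _ = ((1 / 2 : ℝ) * 2) ^ (∏ j, s j).primeFactors.card * (∏ j, 1 / (s j : ℝ)) := by
                  rw [mul_pow]; ring
              _ = _ := by norm_num
          have k5 : 1 ≤ 1000 * Dsc X (8 * (f * t) * ∏ j, s j) := by linarith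
          calc mu s * ((Pool.Agent.Y667.QK.GZ f t s).card : ℝ) ≤ ∏ j, 1 / (s j : ℝ) := k4
            _ ≤ (∏ j, 1 / (s j : ℝ)) * (1000 * Dsc X (8 * (f * t) * ∏ j, s j)) :=
                le_mul_of_one_le_right k3 k5
            _ = _ := by ring
        refine (sum_le_sum k1).trans ?_
        rw [← mul_sum]
        have k6 : ∑ s ∈ TR.filter (fun s => ¬ Dsc X (8 * (f * t) * ∏ j, s j) ≤ 1 / 1000),
            (∏ j, 1 / (s j : ℝ)) * Dsc X (8 * (f * t) * ∏ j, s j) ≤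
            ∑ s ∈ TP, (∏ j, 1 / (s j : ℝ)) * Dsc X (8 * (f * t) * ∏ j, s j) :=
          sum_le_sum_of_subset_of_nonneg ((filter_subset _ _).trans hTRP) fun s _ _ =>
            mul_nonneg (prod_nonneg fun j _ => one_div_nonneg.2 (Nat.cast_nonneg _)) (Dsc_nonneg _ _)
        linarith
      have hsplit0 := sum_filter_add_sum_filter_not TR
        (fun s => Dsc X (8 * (f * t) * ∏ j, s j) ≤ 1 / 1000) (fun s => mu s * ((Pool.Agent.Y667.QK.GZ f t s).card : ℝ))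
      have k7 : 1000 ≤ cG / 2 * L ^ 3 := by
        have k8 : 2000 / cG ≤ L := by
          have : 0 < 16 / c1 := div_pos (by norm_num) hc1pos
          linarith
        have k9 : 1 ≤ L := by
          have : 0 < 16 / c1 := div_pos (by norm_num) hc1pos
          have : 0 < 2000 / cG := div_pos (by norm_num) hcG
          linarith
        rw [div_le_iff₀ hcG] at k8
        have k10 : L ≤ L ^ 3 := le_self_pow₀ k9 (by norm_num)
        exact aux1 hcG k8 k10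
      linarith
    have h7 : 0 ≤ c * ((X : ℝ) ^ 2 / (256 * (Q0.totient : ℝ) ^ 2) / L ^ 3) := aux8 hc hL
    refine le_trans (le_of_eq ?_) (mul_le_mul_of_nonneg_left h6 h7)
    rw [hc1]
    exact aux10 hL
  -- the upper bounds
  have hGs : ∑ s ∈ TT, ∑ E ∈ Pool.Agent.Y667.QK.GZ f t s, ((G s E).card : ℝ) ≤
      (((Icc 1 X ×ˢ Icc 1 X).filter (GoodL M α α' f β D t X)).card : ℝ) := by
    refine card_bound hz2 hB hM _ G TT hTsub ?_
    intro s hs E hE y hy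
    obtain ⟨h1, h2, h3⟩ := mem_filter.1 hy
    refine ⟨h1, h2.rg (by omega), ?_⟩
    rw [mem_filter, mem_product, mem_Icc, mem_Icc]
    have h4 := h3
    obtain ⟨⟨g1, g2, g3, g4, -⟩, -⟩ := h4
    simp only at g1 g2 g3 g4
    exact ⟨⟨⟨by omega, g2⟩, ⟨by omega, by omega⟩⟩, h3⟩
  have hExs : ∑ s ∈ TT, ∑ E ∈ Pool.Agent.Y667.QK.GZ f t s, ((Ex s E).card : ℝ) ≤
      (((Icc 1 X ×ˢ Icc 1 X).filter (ExP X)).card : ℝ) := by
    refine card_bound hz2 hB hM _ Ex TT hTsub ?_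
    intro s hs E hE y hy
    obtain ⟨h1, h2, h3⟩ := mem_filter.1 hy
    obtain ⟨d1, d2⟩ := Trip_dat (hTsub hs)
    refine ⟨h1, h2.rg (by omega), ?_⟩
    have heq := AA_eq hz2 d1 hM h1
    have hlt := AA_lt h1
    obtain ⟨b1, b2, b3⟩ := AA_big hB d2 h1
    have h4 := h1
    unfold AA at h4
    rw [mem_filter] at h4
    obtain ⟨-, hm, hn, g1, g2, g3, g4, -⟩ := h4
    rw [mem_filter, mem_product, mem_Icc, mem_Icc]
    refine ⟨⟨⟨by simp only; omega, g2⟩, ⟨by simp only; omega, by simp only; omega⟩⟩, hlt, ?_⟩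
    rcases h3 with h3 | ⟨q, hq, hqX, hqv⟩
    · refine ⟨y.1, hm, ?_, Or.inl ⟨dvd_mul_left _ _, ?_⟩⟩
      · by_contra hcon
        push Not at hcon
        have h1X : (1 : ℝ) ≤ X := by exact_mod_cast (by omega : 1 ≤ X)
        have h5 : (X : ℝ) ^ (1 / 4 : ℝ) ≤ (X : ℝ) ^ (1 / 2 : ℝ) :=
          Real.rpow_le_rpow_of_exponent_le h1X (by norm_num)
        have := (b3 y.1 (by linarith)).1
        omega
      · show y.1 ∣ s 1 * y.2
        rw [← h3]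
        exact dvd_mul_left _ _
    · refine ⟨q, hq, hqX, Or.inr ?_⟩
      show q ^ 2 ∣ s 0 * y.1 - s 1 * y.2
      rw [heq]
      exact (hqv.mul_left _).mul_left _
  have hErn : ∀ s, 0 ≤ Er X Q0 z s := by
    intro s
    unfold Er
    exact add_nonneg (sum_nonneg fun _ _ => er_nonneg _ _ _ _)
      (sum_nonneg fun _ _ => sum_nonneg fun _ _ => er_nonneg _ _ _ _)
  have hErs : ∑ s ∈ TT, ∑ E ∈ Pool.Agent.Y667.QK.GZ f t s, 2 * (L * Er X Q0 z s) ≤ 2 * (L * (2 * SE X Q0)) := by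
    have h1 : ∀ s ∈ TT, ∑ E ∈ Pool.Agent.Y667.QK.GZ f t s, 2 * (L * Er X Q0 z s) ≤
        2 * (L * ((2 : ℝ) ^ (∏ j, s j).primeFactors.card * Er X Q0 z s)) := by
      intro s _
      rw [sum_const, nsmul_eq_mul]
      have h2 : ((Pool.Agent.Y667.QK.GZ f t s).card : ℝ) ≤ (2 : ℝ) ^ (∏ j, s j).primeFactors.card := by
        exact_mod_cast GZ_card f t s
      have h3 := mul_le_mul_of_nonneg_right h2 (mul_nonneg hL.le (hErn s))
      calc ((Pool.Agent.Y667.QK.GZ f t s).card : ℝ) * (2 * (L * Er X Q0 z s)) =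
            2 * (((Pool.Agent.Y667.QK.GZ f t s).card : ℝ) * (L * Er X Q0 z s)) := by ring
        _ ≤ 2 * ((2 : ℝ) ^ (∏ j, s j).primeFactors.card * (L * Er X Q0 z s)) := by linarith
        _ = 2 * (L * ((2 : ℝ) ^ (∏ j, s j).primeFactors.card * Er X Q0 z s)) := by ring
    refine (sum_le_sum h1).trans ?_
    rw [← mul_sum, ← mul_sum]
    apply mul_le_mul_of_nonneg_left _ (by norm_num)
    apply mul_le_mul_of_nonneg_left _ hL.le
    have h0 : ∑ s ∈ TT, (2 : ℝ) ^ (∏ j, s j).primeFactors.card * Er X Q0 z s ≤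
        ∑ s ∈ TP, (2 : ℝ) ^ (∏ j, s j).primeFactors.card * Er X Q0 z s :=
      sum_le_sum_of_subset_of_nonneg hTsub fun s _ _ => mul_nonneg (pow_nonneg (by norm_num) _) (hErn s)
    refine h0.trans ?_
    have h4 : ∑ s ∈ TP, (2 : ℝ) ^ (∏ j, s j).primeFactors.card * Er X Q0 z s =
        ∑ s ∈ TP, (2 : ℝ) ^ (∏ j, s j).primeFactors.card *
          ∑ q ∈ Lev z ((X : ℝ) ^ (99 / 100 : ℝ)), er X Q0 s q +
        ∑ s ∈ TP, (2 : ℝ) ^ (∏ j, s j).primeFactors.card *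
          ∑ q1 ∈ Pr X, ∑ q ∈ Lev z ((X : ℝ) ^ (49 / 100 : ℝ)), er X Q0 (up s q1) q := by
      rw [← sum_add_distrib]
      apply sum_congr rfl
      intro s _
      unfold Er
      rw [mul_add]
    rw [h4]
    have h5 := errA (z := z) (Q0 := Q0) hB
    have h6 := errB (z := z) (Q0 := Q0) hB
    linarith
  have hSE : SE X Q0 ≤ (X : ℝ) ^ 2 / L ^ 3 := hE'
  have hExb := ExP_card (X := X) (by
    have : 0 < 32 / c1 := div_pos (by norm_num) hc1pos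
    linarith)
  -- the final comparison
  have f1 : 8 * (X : ℝ) ^ 2 / (X : ℝ) ^ (1 / 4 : ℝ) ≤ c1 / 4 * (X : ℝ) ^ 2 := by
    have hq : 0 < (X : ℝ) ^ (1 / 4 : ℝ) := Real.rpow_pos_of_pos hXr _
    rw [div_le_iff₀ hq]
    have h1 : 32 / c1 ≤ (X : ℝ) ^ (1 / 4 : ℝ) := by linarith
    rw [div_le_iff₀ hc1pos] at h1
    exact aux2 h1
  have f2 : 2 * (L * (2 * ((X : ℝ) ^ 2 / L ^ 3))) ≤ c1 / 4 * (X : ℝ) ^ 2 := by
    have h1 : 2 * (L * (2 * ((X : ℝ) ^ 2 / L ^ 3))) = 4 / L ^ 2 * (X : ℝ) ^ 2 := aux11 hL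
    rw [h1]
    apply mul_le_mul_of_nonneg_right _ (pow_nonneg hXr.le 2)
    rw [div_le_iff₀ (pow_pos hL 2)]
    have h20 : 0 < 2000 / cG := div_pos (by norm_num) hcG
    have h2 : 16 / c1 ≤ L := by linarith
    have h3 : 1 ≤ L := by
      have : 0 < 16 / c1 := div_pos (by norm_num) hc1pos
      linarith
    rw [div_le_iff₀ hc1pos] at h2
    exact aux3 hc1pos h2 h3
  have hsplit : ∑ s ∈ TT, ∑ E ∈ Pool.Agent.Y667.QK.GZ f t s,
      (((G s E).card : ℝ) + ((Ex s E).card : ℝ) + 2 * (L * Er X Q0 z s)) =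
      ∑ s ∈ TT, ∑ E ∈ Pool.Agent.Y667.QK.GZ f t s, ((G s E).card : ℝ) + ∑ s ∈ TT, ∑ E ∈ Pool.Agent.Y667.QK.GZ f t s, ((Ex s E).card : ℝ) +
        ∑ s ∈ TT, ∑ E ∈ Pool.Agent.Y667.QK.GZ f t s, 2 * (L * Er X Q0 z s) := by
    simp only [sum_add_distrib]
  rw [hsplit] at hsum
  have h9 : 2 * (L * (2 * SE X Q0)) ≤ 2 * (L * (2 * ((X : ℝ) ^ 2 / L ^ 3))) := aux7 hL hSE
  have hfin : c1 / 2 * (X : ℝ) ^ 2 ≤ (((Icc 1 X ×ˢ Icc 1 X).filter (GoodL M α α' f β D t X)).card : ℝ) := by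
    linarith
  refine le_trans ?_ hfin
  have hDr : (0 : ℝ) < D := by exact_mod_cast Nat.pos_of_ne_zero hD0
  have hφ2 : (Q0.totient : ℝ) ^ 2 ≤ (Qz : ℝ) ^ 2 * (D : ℝ) ^ 2 := by
    rw [← mul_pow]
    apply pow_le_pow_left₀ hφ.le
    have h10 : Q0.totient ≤ Qz * D := hQ0 ▸ Nat.totient_le Q0
    exact_mod_cast h10
  have h11 : c * (cG / 2 / (256 * (Qz : ℝ) ^ 2)) / 2 * (X : ℝ) ^ 2 / (D : ℝ) ^ 2 =
      c * (cG / 2 / (256 * ((Qz : ℝ) ^ 2 * (D : ℝ) ^ 2))) / 2 * (X : ℝ) ^ 2 := by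
    field_simp
  rw [h11, hc1]
  exact aux4 hc hcG (pow_pos hφ 2) hφ2

end Pool.Agent.K1H6.LC
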